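import Mathlib

open Set Filter Topology Metric
open scoped NNReal

namespace Pool.Agent.H.MP_f4f698_an

/-- a family of scalar differential equations, Lipschitz and bounded on bounded time intervals -/
structure Fam (G : ℝ → ℝ → ℝ → ℝ) : Prop where
  lip : ∀ T : ℝ, ∃ K : ℝ≥0, ∀ a b s, s ∈ Icc (-T) T → ∀ v w,
    |G a s v - G b s w| ≤ K * (|a - b| + |v - w|)
  bd : ∀ T : ℝ, ∃ L : ℝ≥0, ∀ a s, s ∈ Icc (-T) T → ∀ v, |G a s v| ≤ L
  cont : ∀ a v, Continuous fun s => G a s v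

variable {G : ℝ → ℝ → ℝ → ℝ}

lemma Fam.lipW (h : Fam G) (T : ℝ) : ∃ K : ℝ≥0, ∀ a s, s ∈ Icc (-T) T →
    LipschitzWith K (G a s) := by
  obtain ⟨K, hK⟩ := h.lip T
  refine ⟨K, fun a s hs => LipschitzWith.of_dist_le_mul fun v w => ?_⟩
  have := hK a a s hs v w
  simpa [Real.dist_eq] using this

lemma Fam.uniq (h : Fam G) (a : ℝ) {T : ℝ} (hT : 0 < T) {α β : ℝ → ℝ}
    (hα : ∀ t ∈ Ioo (-T) T, HasDerivAt α (G a t (α t)) t)
    (hβ : ∀ t ∈ Ioo (-T) T, HasDerivAt β (G a t (β t)) t) (h0 : α 0 = β 0) :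
    EqOn α β (Ioo (-T) T) := by
  obtain ⟨K, hK⟩ := h.lipW T
  exact ODE_solution_unique_of_mem_Ioo (v := G a) (s := fun _ => univ) (t₀ := 0)
    (fun t ht => (hK a t (Ioo_subset_Icc_self ht)).lipschitzOnWith) ⟨by linarith, hT⟩
    (fun t ht => ⟨hα t ht, trivial⟩) (fun t ht => ⟨hβ t ht, trivial⟩) h0

lemma Fam.exists_sol (h : Fam G) (a : ℝ) :
    ∃ α : ℝ → ℝ, α 0 = 0 ∧ ∀ t, HasDerivAt α (G a t (α t)) t := by
  have h1 : ∀ r : ℝ, ∃ α : ℝ → ℝ, α 0 = 0 ∧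
      ∀ t ∈ Ioo (-(|r| + 1)) (|r| + 1), HasDerivAt α (G a t (α t)) t := fun r => by
    have h0 : 0 < |r| + 1 := by positivity
    obtain ⟨K, hK⟩ := h.lipW (|r| + 1)
    obtain ⟨L, hL⟩ := h.bd (|r| + 1)
    have P : IsPicardLindelof (G a) (tmin := -(|r| + 1)) (tmax := |r| + 1)
        ⟨0, by linarith, h0.le⟩ 0 (L * ⟨_, h0.le⟩) 0 L K :=
      ⟨fun t ht => (hK a t ht).lipschitzOnWith, fun x _ => (h.cont a x).continuousOn,
        fun t ht x _ => hL a t ht x, by simp; rfl⟩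
    obtain ⟨α, h1, h2⟩ := P.exists_eq_forall_mem_Icc_hasDerivWithinAt₀
    exact ⟨α, h1, fun t ht => (h2 t (Ioo_subset_Icc_self ht)).hasDerivAt (Icc_mem_nhds ht.1 ht.2)⟩
  choose α h1 h2 using h1
  have h3 : ∀ r s, |r| ≤ |s| → EqOn (α r) (α s) (Ioo (-(|r| + 1)) (|r| + 1)) := fun r s hrs =>
    h.uniq a (by positivity) (h2 r)
      (fun t ht => h2 s t (Ioo_subset_Ioo (by linarith) (by linarith) ht)) (by rw [h1, h1])
  have h4 : ∀ t : ℝ, t ∈ Ioo (-(|t| + 1)) (|t| + 1) := fun t =>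
    ⟨by linarith [neg_abs_le t], by linarith [le_abs_self t]⟩
  refine ⟨fun t => α t t, h1 0, fun t => (h2 t t (h4 t)).congr_of_eventuallyEq ?_⟩
  filter_upwards [Ioo_mem_nhds (h4 t).1 (h4 t).2] with s hs
  rcases le_total |s| |t| with h | h
  exacts [h3 s t h (h4 s), (h3 t s h hs).symm]

lemma Fam.cont_param (h : Fam G) {V : ℝ → ℝ → ℝ} (h0 : ∀ a, V a 0 = 0)
    (hV : ∀ a t, HasDerivAt (V a) (G a t (V a t)) t) {s : ℝ} (hs : 0 ≤ s) :
    Continuous fun a => V a s := by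
  obtain ⟨K, hK⟩ := h.lip s
  obtain ⟨K', hK'⟩ := h.lipW s
  rw [continuous_iff_continuousAt]
  intro a
  have key : ∀ b, dist (V b s) (V a s) ≤ gronwallBound 0 K' (K * |b - a| + 0) (s - 0) := by
    intro b
    refine dist_le_of_approx_trajectories_ODE_of_mem (v := G a) (s := fun _ => univ)
      (f' := fun t => G b t (V b t)) (g' := fun t => G a t (V a t)) (a := 0) (b := s)
      (fun t ht => (hK' a t ⟨by linarith [ht.1], ht.2.le⟩).lipschitzOnWith)
      (fun t _ => (hV b t).continuousAt.continuousWithinAt)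
      (fun t _ => (hV b t).hasDerivWithinAt) (fun t ht => ?_) (fun _ _ => trivial)
      (fun t _ => (hV a t).continuousAt.continuousWithinAt)
      (fun t _ => (hV a t).hasDerivWithinAt) (fun t _ => by simp) (fun _ _ => trivial)
      (by simp [h0]) s ⟨hs, le_rfl⟩
    have := hK b a t ⟨by linarith [ht.1], ht.2.le⟩ (V b t) (V b t)
    simpa [Real.dist_eq] using this
  rw [ContinuousAt, tendsto_iff_dist_tendsto_zero]
  refine squeeze_zero (fun _ => dist_nonneg) key ?_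
  have c : Continuous fun b : ℝ => gronwallBound 0 K' (K * |b - a| + 0) (s - 0) :=
    (gronwallBound_continuous_ε 0 K' (s - 0)).comp (by fun_prop)
  have := c.tendsto a
  simpa [gronwallBound_ε0_δ0] using this

lemma fence {f g f' g' : ℝ → ℝ} (hf : ∀ x, HasDerivAt f (f' x) x)
    (hg : ∀ x, HasDerivAt g (g' x) x) {a b : ℝ} (ha : f a ≤ g a)
    (bound : ∀ x, a ≤ x → x < b → f x = g x → f' x < g' x) {x : ℝ} (h1 : a ≤ x) (h2 : x ≤ b) :
    f x ≤ g x :=
  image_le_of_deriv_right_lt_deriv_boundary (a := a) (b := b)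
    (fun x _ => (hf x).continuousAt.continuousWithinAt) (fun x _ => (hf x).hasDerivWithinAt)
    ha hg (fun x hx => bound x hx.1 hx.2) ⟨h1, h2⟩

end Pool.Agent.H.MP_f4f698_an
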