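import Pool.Agent.H.MP_f4f698_an.A

open Set Filter Topology Metric
open scoped NNReal

namespace Pool.Agent.H.MP_f4f698_an

/-- dimension parameter -/
def mu : ℝ := 100000000

def Dn (s v : ℝ) : ℝ := (1 - s * v) ^ 2 + 3 * (s + v) ^ 2

lemma Dn_pos (s v : ℝ) : 0 < Dn s v := by
  unfold Dn
  rcases eq_or_ne (s + v) 0 with h | h
  · have : v = -s := by linarith
    subst this
    have : 0 < 1 - s * -s := by nlinarith [sq_nonneg s]
    positivity
  · positivity

noncomputable def F (a s v : ℝ) : ℝ :=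
  (1 + v ^ 2) * (mu + 3 * a - mu * s * v + 3 * a * v ^ 2) / Dn s v

noncomputable def U (s : ℝ) : ℝ := 41 / 120 * mu * s + 1000

noncomputable def ca (a : ℝ) : ℝ := max (49 / 50) (min a 1)

noncomputable def cl (s v : ℝ) : ℝ := max (-U |s|) (min v (U |s|))

noncomputable def Gc (a s v : ℝ) : ℝ := F (ca a) s (cl s v)

lemma U_pos {s : ℝ} (hs : 0 ≤ s) : 0 < U s := by unfold U mu; positivity

lemma clamp_lip (p q x y : ℝ) : |max p (min x q) - max p (min y q)| ≤ |x - y| := by
  refine (abs_max_sub_max_le_max _ _ _ _).trans (max_le (by simp) ?_)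
  refine (abs_min_sub_min_le_max _ _ _ _).trans (max_le le_rfl (by simp))

lemma contDiff_F : ContDiff ℝ 1 fun p : ℝ × ℝ × ℝ => F p.1 p.2.1 p.2.2 := by
  unfold F
  refine ContDiff.div (by fun_prop) (by unfold Dn; fun_prop) fun p => (Dn_pos _ _).ne'

lemma mem_box (T a s v : ℝ) (hs : s ∈ Icc (-T) T) : (ca a, s, cl s v) ∈
    Icc (49 / 50 : ℝ) 1 ×ˢ (Icc (-T) T ×ˢ Icc (-U T) (U T)) := by
  have h1 : |s| ≤ T := abs_le.2 hs
  have h2 : U |s| ≤ U T := by unfold U mu; linarith
  have h3 := U_pos (abs_nonneg s)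
  refine ⟨⟨le_max_left _ _, max_le (by norm_num) (min_le_right _ _)⟩, hs, ?_, ?_⟩
  · exact le_trans (by simpa using h2) (le_max_left _ _)
  · exact max_le (by linarith) ((min_le_right _ _).trans h2)

lemma fam : Fam Gc := by
  have hc : ∀ T : ℝ, IsCompact (Icc (49 / 50 : ℝ) 1 ×ˢ (Icc (-T) T ×ˢ Icc (-U T) (U T))) :=
    fun T => isCompact_Icc.prod (isCompact_Icc.prod isCompact_Icc)
  refine ⟨fun T => ?_, fun T => ?_, fun a v => ?_⟩
  · obtain ⟨K, hK⟩ := (contDiff_F.locallyLipschitz.locallyLipschitzOn).exists_lipschitzOnWith_of_compact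
      (hc T)
    refine ⟨K, fun a b s hs v w => ?_⟩
    have := hK.dist_le_mul _ (mem_box T a s v hs) _ (mem_box T b s w hs)
    refine le_trans this (mul_le_mul_of_nonneg_left ?_ K.2)
    simp only [Prod.dist_eq, Real.dist_eq, sub_self, abs_zero]
    have e1 : |ca a - ca b| ≤ |a - b| := clamp_lip _ _ a b
    have e2 : |cl s v - cl s w| ≤ |v - w| := clamp_lip _ _ v w
    have := abs_nonneg (a - b)
    have := abs_nonneg (v - w)
    exact max_le (by linarith) (max_le (by linarith) (by linarith))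
  · obtain ⟨C, hC⟩ := (hc T).exists_bound_of_continuousOn contDiff_F.continuous.continuousOn
    refine ⟨⟨max C 0, le_max_right _ _⟩, fun a s hs v => ?_⟩
    exact le_trans (hC _ (mem_box T a s v hs)) (le_max_left _ _)
  · exact contDiff_F.continuous.comp
      (f := fun s : ℝ => (ca a, s, cl s v)) (by unfold cl U; fun_prop)

lemma Gc_eq {a s v : ℝ} (ha : a ∈ Icc (49 / 50 : ℝ) 1) (hs : 0 ≤ s) (h0 : 0 ≤ v) (h1 : v ≤ U s) :
    Gc a s v = F a s v := by
  have h3 := U_pos hs
  unfold Gc ca cl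
  rw [abs_of_nonneg hs, min_eq_left ha.2, max_eq_right ha.1, min_eq_left h1,
    max_eq_right (by linarith)]

lemma F_neg (a s v : ℝ) : F a (-s) (-v) = F a s v := by
  unfold F Dn; congr 1 <;> ring

lemma Gc_neg (a s v : ℝ) : Gc a (-s) (-v) = Gc a s v := by
  have h3 := U_pos (abs_nonneg s)
  have : cl (-s) (-v) = -cl s v := by
    unfold cl
    rw [abs_neg]
    rcases le_total v (-U |s|) with h | h
    · rw [min_eq_right (by linarith), max_eq_right (by linarith), min_eq_left (by linarith),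
        max_eq_left h, neg_neg]
    · rcases le_total v (U |s|) with h' | h'
      · rw [min_eq_left (by linarith), max_eq_right (by linarith), min_eq_left h', max_eq_right h]
      · rw [min_eq_left (by linarith), max_eq_left (by linarith), min_eq_right h',
          max_eq_right (by linarith)]
  unfold Gc
  rw [this, F_neg]

/-- residual on the line `v = c s` -/
def Nq (a c t : ℝ) : ℝ := (mu + 3 * a - c) +
  (c ^ 2 * (mu + 3 * a) - mu * c + 3 * a * c ^ 2 - 4 * c ^ 2 - 3 * c - 3 * c ^ 3) * t +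
  c ^ 3 * (3 * a * c - mu - 1) * t ^ 2

lemma F_line (a c s : ℝ) : F a s (c * s) - c = Nq a c (s ^ 2) / Dn s (c * s) := by
  have := (Dn_pos s (c * s)).ne'
  unfold F
  rw [div_sub' this]
  congr 1
  unfold Nq Dn
  ring

lemma quad_neg {p q r t u : ℝ} (hp : 0 < p) (hr : r < 0) (ht : 0 ≤ t) (htu : t < u)
    (h : p + q * t + r * t ^ 2 ≤ 0) : p + q * u + r * u ^ 2 < 0 := by
  have ht' : 0 < t := by
    rcases ht.eq_or_lt with rfl | h'
    · simp at h; linarith
    · exact h'
  have h1 : q + r * t < 0 := by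
    by_contra h1
    have := mul_nonneg ht (not_lt.1 h1)
    nlinarith
  have h2 : r * u < r * t := by nlinarith
  have h3 : u * (q + r * u) < u * (q + r * t) := by
    apply mul_lt_mul_of_pos_left <;> linarith
  have h4 : u * (q + r * t) < t * (q + r * t) := by nlinarith
  nlinarith

lemma bar_U {a s : ℝ} (ha : a ∈ Icc (49 / 50 : ℝ) 1) (hs : 0 ≤ s) :
    41 / 120 * mu < F a s (U s) := by
  obtain ⟨a1, a2⟩ := ha
  unfold F
  rw [lt_div_iff₀ (Dn_pos _ _)]
  obtain ⟨v, hv⟩ : ∃ v, v = U s := ⟨_, rfl⟩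
  rw [← hv]
  unfold U mu at hv
  unfold Dn mu
  have v1 : 1000 ≤ v := by linarith
  have v2 : 1000 * s ≤ v := by linarith
  have e1 : 40000000 * s + 2940 ≤ 3 * a * v - 100000000 * s + 39999999 * s := by nlinarith
  have e2 : (s + 2940) * v ≤ (3 * a * v - 100000000 * s) * v :=
    mul_le_mul_of_nonneg_right (by linarith) (by linarith)
  have e3 : 2940000 ≤ 2940 * v := by linarith
  have sv : 0 ≤ s * v := by positivity
  have e4 : (1 + v ^ 2) * (100000000 + s * v + 2940000) ≤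
      (1 + v ^ 2) * (100000000 + 3 * a - 100000000 * s * v + 3 * a * v ^ 2) := by
    apply mul_le_mul_of_nonneg_left _ (by positivity)
    nlinarith
  refine lt_of_lt_of_le ?_ e4
  have c1 : 41 / 120 * 100000000 * s ≤ v := by linarith
  have c2 : 41 / 120 * 100000000 * s * v ≤ v * v := mul_le_mul_of_nonneg_right c1 (by linarith)
  have c3 : 41 / 120 * 100000000 * s * (s * v ^ 2) ≤ v * (s * v ^ 2) :=
    mul_le_mul_of_nonneg_right c1 (by positivity)
  have c4 : 41 / 120 * 100000000 * s * s ≤ v * s := mul_le_mul_of_nonneg_right c1 hs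
  have c5 : s * v ≤ v * v := mul_le_mul_of_nonneg_right (by linarith) (by linarith)
  nlinarith

lemma bar_U0 {s : ℝ} (hs : 0 ≤ s) :
    F (49 / 50) s (101 / 300 * mu * s + 50) < 101 / 300 * mu := by
  unfold F
  rw [div_lt_iff₀ (Dn_pos _ _)]
  obtain ⟨v, hv⟩ : ∃ v, v = 101 / 300 * mu * s + 50 := ⟨_, rfl⟩
  rw [← hv]
  unfold mu at hv
  unfold Dn mu
  have v1 : 50 ≤ v := by linarith
  have e1 : 100000000 + 3 * (49 / 50) - 100000000 * s * v + 3 * (49 / 50) * v ^ 2 ≤ 100200000 := by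
    rw [hv]; nlinarith [sq_nonneg (1020000 * s - 73)]
  have e2 : (1 + v ^ 2) * (100000000 + 3 * (49 / 50) - 100000000 * s * v + 3 * (49 / 50) * v ^ 2)
      ≤ (1 + v ^ 2) * 100200000 := mul_le_mul_of_nonneg_left e1 (by positivity)
  refine lt_of_le_of_lt e2 ?_
  have sv : 0 ≤ s * v := by positivity
  nlinarith [sq_nonneg (1 - s * v), sq_nonneg s]

lemma Nq_plus {a s : ℝ} (ha : a ∈ Icc (49 / 50 : ℝ) 1) (hs : 1 ≤ s) {c : ℝ}
    (hc : 3 * a * c = mu + 2) : 0 < Nq a c (s ^ 2) := by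
  obtain ⟨a1, a2⟩ := ha
  unfold mu at hc
  have c0 : 0 < c := by
    by_contra h
    have := mul_nonpos_of_nonneg_of_nonpos (show 0 ≤ 3 * a by linarith) (not_lt.1 h)
    linarith
  have c1 : 33333333 ≤ c := by nlinarith
  have c2 : c ≤ 34100000 := by nlinarith
  have t1 : 1 ≤ s ^ 2 := by nlinarith
  obtain ⟨t, ht⟩ : ∃ t, t = s ^ 2 := ⟨_, rfl⟩
  rw [← ht] at t1 ⊢
  have e : Nq a c t = (mu + 3 * a - c) + t * (c ^ 2 * (mu + 3 * a - 4 - 3 * c + c * t) - c) := by
    unfold Nq mu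
    have : c ^ 3 * (3 * a * c - 100000000 - 1) = c ^ 3 := by rw [hc]; ring
    rw [this]
    have : 3 * a * c ^ 2 = 100000002 * c := by rw [sq, ← mul_assoc, hc]; ring
    rw [this]; ring
  rw [e]
  unfold mu
  have h1 : c ≤ c * t := by nlinarith
  have h2 : 1 ≤ 100000000 + 3 * a - 4 - 3 * c + c * t := by linarith
  have h3 : c ^ 2 * 1 ≤ c ^ 2 * (100000000 + 3 * a - 4 - 3 * c + c * t) :=
    mul_le_mul_of_nonneg_left h2 (by positivity)
  have h4 : 0 ≤ c ^ 2 * (100000000 + 3 * a - 4 - 3 * c + c * t) - c := by nlinarith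
  have := mul_nonneg (show 0 ≤ t by linarith) h4
  linarith

lemma line_deriv (c e x : ℝ) : HasDerivAt (fun s : ℝ => c * s + e) c x := by
  simpa using ((hasDerivAt_id x).const_mul c).add_const e

lemma line_deriv0 (c x : ℝ) : HasDerivAt (fun s : ℝ => c * s) c x := by
  simpa using ((hasDerivAt_id x).const_mul c)

section
variable {a : ℝ} {v : ℝ → ℝ} (ha : a ∈ Icc (49 / 50 : ℝ) 1) (h0 : v 0 = 0)
  (hv : ∀ t, HasDerivAt v (Gc a t (v t)) t)
include ha hv

lemma stay_above {c : ℝ} (hc : 3 * a * c = mu + 2) {s t : ℝ} (hs : 1 ≤ s) (hst : s ≤ t)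
    (h : c * s ≤ v s) : c * t ≤ v t := by
  have c0 : 0 ≤ c := by
    by_contra h
    have := mul_nonpos_of_nonneg_of_nonpos (show 0 ≤ 3 * a by linarith [ha.1]) (not_le.1 h).le
    unfold mu at hc
    linarith
  have c2 : c ≤ 34100000 := by unfold mu at hc; nlinarith [ha.1]
  refine fence (f := fun s => c * s) (line_deriv0 c) hv h (fun x h1 _ h3 => ?_) hst le_rfl
  have x0 : 0 ≤ x := by linarith
  rw [← h3, Gc_eq ha x0 (by positivity) (by unfold U mu; nlinarith), ← sub_pos, F_line]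
  exact div_pos (Nq_plus ha (by linarith) hc) (Dn_pos _ _)

include h0 in
lemma stay_below {c : ℝ} (hc : 3 * a * c = mu) {s t : ℝ} (hs : 0 ≤ s) (hst : s ≤ t)
    (h : v s < c * s) : v t ≤ c * t := by
  have c0 : 0 < c := by
    by_contra h
    have := mul_nonpos_of_nonneg_of_nonpos (show 0 ≤ 3 * a by linarith [ha.1]) (not_lt.1 h)
    unfold mu at hc
    linarith
  have c2 : c ≤ 34100000 := by unfold mu at hc; nlinarith [ha.1]
  have hU : ∀ x, 0 ≤ x → Gc a x (c * x) = F a x (c * x) := fun x x0 =>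
    Gc_eq ha x0 (by positivity) (by unfold U mu; nlinarith)
  obtain ⟨s0, s1, s2, s3⟩ : ∃ s0, 0 ≤ s0 ∧ s0 < s ∧ Nq a c (s0 ^ 2) ≤ 0 := by
    by_contra! H
    refine absurd (fence (f := fun s => c * s) (line_deriv0 c) hv (a := 0) (b := s)
      (by simp [h0]) (fun x h1 h2 h3 => ?_) hs le_rfl) (not_le.2 h)
    rw [← h3, hU x h1, ← sub_pos, F_line]
    exact div_pos (H x h1 h2) (Dn_pos _ _)
  refine fence (g := fun s => c * s) hv (line_deriv0 c) h.le (fun x h1 _ h3 => ?_) hst le_rfl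
  rw [h3, hU x (by linarith), ← sub_neg, F_line]
  refine div_neg_of_neg_of_pos ?_ (Dn_pos _ _)
  refine quad_neg (t := s0 ^ 2) (by unfold mu; linarith [ha.1]) ?_ (by positivity) (by nlinarith) s3
  rw [hc]
  have : 0 < c ^ 3 := by positivity
  linarith

lemma stay_U {s t : ℝ} (hs : 0 ≤ s) (hst : s ≤ t) (h : U s ≤ v s) : U t ≤ v t := by
  refine fence (f := U) (line_deriv _ _) hv h (fun x h1 _ h3 => ?_) hst le_rfl
  have x0 : 0 ≤ x := by linarith
  rw [← h3, Gc_eq ha x0 (U_pos x0).le le_rfl]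
  exact bar_U ha x0

end

lemma end_low {v : ℝ → ℝ} (h0 : v 0 = 0) (hv : ∀ t, HasDerivAt v (Gc (49 / 50) t (v t)) t) :
    v 1 ≤ 101 / 300 * mu * 1 + 50 := by
  refine fence (g := fun s => 101 / 300 * mu * s + 50) hv (line_deriv _ _) (a := 0) (b := 1)
    (by simp [h0]) (fun x h1 _ h3 => ?_) zero_le_one le_rfl
  rw [h3, Gc_eq (by norm_num) h1 (by unfold mu; positivity) (by unfold U mu; linarith)]
  exact bar_U0 h1

lemma end_high {v : ℝ → ℝ} (h0 : v 0 = 0) (hv : ∀ t, HasDerivAt v (Gc 1 t (v t)) t) :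
    (mu + 2) / 3 < v 1 := by
  obtain ⟨K, hK⟩ := fam.lip 1
  obtain ⟨c, hc⟩ : ∃ c : ℝ, c = (mu + 3) / 3 := ⟨_, rfl⟩
  obtain ⟨r, hr⟩ : ∃ r : ℝ, r = 1 / 6 * Real.exp (-(K + 1)) := ⟨_, rfl⟩
  have r0 : 0 < r := by rw [hr]; positivity
  have hB : ∀ x, HasDerivAt (fun s : ℝ => c * s - r * Real.exp ((K + 1) * s))
      (c - r * (Real.exp ((K + 1) * x) * (K + 1))) x := fun x =>
    (line_deriv0 c x).sub ((line_deriv0 _ x).exp.const_mul r)
  have := fence hB hv (a := 0) (b := 1) (by simp [h0, r0.le]) (fun x h1 h2 h3 => ?_)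
    zero_le_one le_rfl
  · have e : r * Real.exp ((K + 1) * 1) = 1 / 6 := by
      rw [hr, mul_assoc, ← Real.exp_add]; simp
    rw [e] at this
    linarith
  · have h4 := hK 1 1 x ⟨by linarith, h2.le⟩ (c * x) (v x)
    have c0 : 0 ≤ c := by rw [hc]; unfold mu; positivity
    rw [Gc_eq (by norm_num) h1 (by positivity) (by rw [hc]; unfold U mu; linarith)] at h4
    have h5 : 0 ≤ F 1 x (c * x) - c := by
      rw [F_line]
      refine div_nonneg ?_ (Dn_pos _ _).le
      have : Nq 1 c (x ^ 2) = 2 * c * (c * x ^ 2 - 1) ^ 2 := by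
        have : mu = 3 * c - 3 := by linarith
        unfold Nq; rw [this]; ring
      rw [this]; positivity
    have h6 : c * x - v x = r * Real.exp ((K + 1) * x) := by linarith
    have h7 : 0 < r * Real.exp ((K + 1) * x) := by positivity
    rw [h6, sub_self, abs_zero, zero_add, abs_of_pos h7] at h4
    have := (abs_le.1 h4).2
    nlinarith

theorem shoot : ∃ a ∈ Icc (49 / 50 : ℝ) 1, ∃ v : ℝ → ℝ, (∀ s, HasDerivAt v (F a s (v s)) s) ∧
    (∀ s, v (-s) = -v s) ∧ ∀ s, 0 ≤ s → mu * s ≤ 3 * a * v s ∧ v s ≤ U s := by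
  choose V V0 hV using fam.exists_sol
  have cV : ∀ s, 0 ≤ s → Continuous fun a => V a s := fun s hs => fam.cont_param V0 hV hs
  let A : Set ℝ := ⋃ s ∈ Ici (1 : ℝ), {a | (mu + 2) * s < 3 * a * V a s}
  let B : Set ℝ := ⋃ s ∈ Ici (0 : ℝ), {a | 3 * a * V a s < mu * s}
  have oA : IsOpen A := isOpen_biUnion fun s hs =>
    isOpen_lt continuous_const ((by fun_prop : Continuous fun a : ℝ => 3 * a).mul
      (cV s (zero_le_one.trans hs)))
  have oB : IsOpen B := isOpen_biUnion fun s hs =>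
    isOpen_lt ((by fun_prop : Continuous fun a : ℝ => 3 * a).mul (cV s hs)) continuous_const
  have hAB : ¬ Icc (49 / 50 : ℝ) 1 ⊆ A ∪ B := by
    intro H
    have nA : (Icc (49 / 50 : ℝ) 1 ∩ A).Nonempty := by
      refine ⟨1, by norm_num, mem_biUnion (x := 1) (by simp) ?_⟩
      have := end_high (V0 1) (hV 1)
      show (mu + 2) * 1 < 3 * 1 * V 1 1
      linarith
    have nB : (Icc (49 / 50 : ℝ) 1 ∩ B).Nonempty := by
      refine ⟨49 / 50, by norm_num, mem_biUnion (x := 1) (by simp) ?_⟩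
      have := end_low (V0 _) (hV _)
      show 3 * (49 / 50) * V (49 / 50) 1 < mu * 1
      unfold mu at this ⊢
      linarith
    obtain ⟨a, ha, hA, hB⟩ := isPreconnected_Icc A B oA oB H nA nB
    obtain ⟨s, hs, h1⟩ := mem_iUnion₂.1 hA
    obtain ⟨t, ht, h2⟩ := mem_iUnion₂.1 hB
    have a0 : 0 < 3 * a := by linarith [ha.1]
    have hs : 1 ≤ s := hs
    have k1 := stay_above ha (hV a) (c := (mu + 2) / (3 * a)) (mul_div_cancel₀ _ a0.ne') hs (le_max_left s t)
      (by rw [div_mul_eq_mul_div, div_le_iff₀ a0]; exact (le_of_lt h1).trans_eq (by ring))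
    have k2 := stay_below ha (V0 a) (hV a) (c := mu / (3 * a)) (mul_div_cancel₀ _ a0.ne') ht (le_max_right s t)
      (by rw [div_mul_eq_mul_div, lt_div_iff₀ a0]; exact lt_of_eq_of_lt (by ring) h2)
    have k3 := k1.trans k2
    have : 0 < max s t := lt_of_lt_of_le (by linarith) (le_max_left s t)
    rw [mul_le_mul_iff_left₀ this, div_le_div_iff_of_pos_right a0] at k3
    linarith
  obtain ⟨a, ha, hn⟩ := not_subset.1 hAB
  have a0 : 0 < 3 * a := by linarith [ha.1]
  have odd : ∀ s, V a (-s) = -V a s := by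
    intro s
    have := fam.uniq a (T := |s| + 1) (by positivity) (α := fun t => -V a (-t))
      (β := V a) (fun t _ => ?_) (fun t _ => hV a t) (by simp [V0])
    · have := this (x := s) ⟨by linarith [neg_abs_le s], by linarith [le_abs_self s]⟩
      simp only at this
      linarith
    · have h1 := ((hV a (-t)).comp t (hasDerivAt_neg t)).neg
      have h2 := Gc_neg a t (-V a (-t))
      rw [neg_neg] at h2
      rw [← h2]
      exact h1.congr_deriv (by ring)
  have lo : ∀ s, 0 ≤ s → mu * s ≤ 3 * a * V a s := fun s hs =>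
    not_lt.1 fun h => hn (Or.inr (mem_biUnion (x := s) hs h))
  have hi : ∀ s, 0 ≤ s → V a s ≤ U s := fun s hs => by
    by_contra h
    have := stay_U ha (hV a) hs (le_max_left s 1) (not_le.1 h).le
    refine hn (Or.inl (mem_biUnion (x := max s 1) (le_max_right s 1) ?_))
    show (mu + 2) * max s 1 < 3 * a * V a (max s 1)
    have h1 := le_max_right s 1
    have h2 : 3 * (49 / 50) * U (max s 1) ≤ 3 * a * V a (max s 1) :=
      mul_le_mul (by linarith [ha.1]) this (U_pos (by linarith)).le a0.le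
    unfold U mu at *
    linarith
  have pos : ∀ s, 0 ≤ s → Gc a s (V a s) = F a s (V a s) := fun s hs => by
    refine Gc_eq ha hs ?_ (hi s hs)
    have := lo s hs
    have h1 : 0 ≤ mu * s := by unfold mu; positivity
    exact nonneg_of_mul_nonneg_right (by linarith) a0 |> fun h => h
  refine ⟨a, ha, V a, fun s => ?_, odd, fun s hs => ⟨lo s hs, hi s hs⟩⟩
  rcases le_total 0 s with hs | hs
  · rw [← pos s hs]; exact hV a s
  · have := pos (-s) (by linarith)
    rw [odd, Gc_neg, F_neg] at this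
    rw [← this]; exact hV a s

end Pool.Agent.H.MP_f4f698_an
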