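import Pool.Agent.H.MP_f4f698_an.B

open Set Filter Topology Metric

namespace Pool.Agent.H.MP_f4f698_an

lemma le_of_deriv {h h' : ℝ → ℝ} {a b : ℝ} (hab : a ≤ b)
    (hd : ∀ x ∈ Icc a b, HasDerivAt h (h' x) x) (h0 : ∀ x ∈ Icc a b, 0 ≤ h' x) : h a ≤ h b :=
  monotoneOn_of_deriv_nonneg (convex_Icc a b)
    (fun s hs => (hd s hs).continuousAt.continuousWithinAt)
    (fun s hs => (hd s (interior_subset hs)).differentiableAt.differentiableWithinAt)
    (fun s hs => by rw [(hd s (interior_subset hs)).deriv]; exact h0 s (interior_subset hs))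
    ⟨le_rfl, hab⟩ ⟨hab, le_rfl⟩ hab

noncomputable def ell (a s v : ℝ) : ℝ :=
  ((mu + 3 * a) * s * (1 + v ^ 2) - a * v * (1 + 3 * v ^ 2 + 2 * s * v)) / Dn s v

structure Sol (a : ℝ) (v r : ℝ → ℝ) : Prop where
  ha : a ∈ Icc (49 / 50 : ℝ) 1
  hv : ∀ s, HasDerivAt v (F a s (v s)) s
  hr : ∀ s, HasDerivAt r (ell a s (v s)) s
  odd : ∀ s, v (-s) = -v s
  even : ∀ s, r (-s) = r s
  r0 : r 0 = 0
  lo : ∀ s, 0 ≤ s → mu * s ≤ 3 * a * v s
  hi : ∀ s, 0 ≤ s → v s ≤ U s

lemma cont_ell (a : ℝ) {v : ℝ → ℝ} (hv : Continuous v) : Continuous fun s => ell a s (v s) := by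
  unfold ell
  refine Continuous.div (by fun_prop) (by unfold Dn; fun_prop) fun s => (Dn_pos _ _).ne'

lemma cont_F (a : ℝ) {v : ℝ → ℝ} (hv : Continuous v) : Continuous fun s => F a s (v s) :=
  contDiff_F.continuous.comp (f := fun s => (a, s, v s)) (by fun_prop)

theorem exists_sol : ∃ a v r, Sol a v r := by
  obtain ⟨a, ha, v, hv, odd, hb⟩ := shoot
  have cv : Continuous v := continuous_iff_continuousAt.2 fun s => (hv s).continuousAt
  have hr : ∀ s, HasDerivAt (fun s => ∫ t in (0 : ℝ)..s, ell a t (v t)) (ell a s (v s)) s :=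
    fun s => ((cont_ell a cv).integral_hasStrictDerivAt 0 s).hasDerivAt
  refine ⟨a, v, _, ha, hv, hr, odd, fun s => ?_, by simp, fun s hs => (hb s hs).1,
    fun s hs => (hb s hs).2⟩
  have e : ∀ t, ell a (-t) (v (-t)) = -ell a t (v t) := fun t => by
    rw [odd]; unfold ell Dn; rw [← neg_div]; congr 1 <;> ring
  have := intervalIntegral.integral_comp_neg (a := s) (b := 0) fun t => ell a t (v t)
  simp only [e, neg_zero, intervalIntegral.integral_neg] at this
  rw [← this, ← intervalIntegral.integral_symm]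

noncomputable def gg (v r : ℝ → ℝ) (s : ℝ) : ℝ := Real.exp (r s) * (s * v s - 1)
noncomputable def PP (a : ℝ) (v r : ℝ → ℝ) (s : ℝ) : ℝ := (a + 1) * Real.exp (r s) * v s
noncomputable def RR (a : ℝ) (r : ℝ → ℝ) (s : ℝ) : ℝ := -((a + 1) * Real.exp (r s))
noncomputable def ww (a s : ℝ) : ℝ := (1 + s ^ 2) ^ (-(a + 1) / 2)

lemma ww_pos (a s : ℝ) : 0 < ww a s := by unfold ww; positivity

lemma ww_deriv (a s : ℝ) : HasDerivAt (ww a) (-((a + 1) * s * ww a s / (1 + s ^ 2))) s := by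
  have h : (0 : ℝ) < 1 + s ^ 2 := by positivity
  have h1 : HasDerivAt (fun s : ℝ => 1 + s ^ 2) (2 * s) s := by
    simpa using (hasDerivAt_pow 2 s).const_add 1
  refine (h1.rpow_const (p := -(a + 1) / 2) (Or.inl h.ne')).congr_deriv ?_
  unfold ww
  rw [Real.rpow_sub_one h.ne']
  field_simp

lemma ww_sqrt (a s : ℝ) : (1 + s ^ 2) ^ (-a / 2) = ww a s * √(1 + s ^ 2) := by
  have h : (0 : ℝ) < 1 + s ^ 2 := by positivity
  unfold ww
  rw [Real.sqrt_eq_rpow, ← Real.rpow_add h]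
  congr 1; ring

namespace Sol
variable {a : ℝ} {v r : ℝ → ℝ} (h : Sol a v r)
include h

lemma cv : Continuous v := continuous_iff_continuousAt.2 fun s => (h.hv s).continuousAt

lemma dv : ContDiff ℝ 1 v := by
  rw [contDiff_one_iff_deriv]
  refine ⟨fun s => (h.hv s).differentiableAt, ?_⟩
  rw [show deriv v = _ from funext fun s => (h.hv s).deriv]
  exact cont_F a h.cv

lemma dr : ContDiff ℝ 1 r := by
  rw [contDiff_one_iff_deriv]
  refine ⟨fun s => (h.hr s).differentiableAt, ?_⟩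
  rw [show deriv r = _ from funext fun s => (h.hr s).deriv]
  exact cont_ell a h.cv

lemma hg (s : ℝ) : HasDerivAt (gg v r) (PP a v r s) s := by
  refine ((h.hr s).exp.mul (((hasDerivAt_id s).mul (h.hv s)).sub_const 1)).congr_deriv ?_
  have := (Dn_pos s (v s)).ne'
  simp only [PP, ell, F, id, Pi.mul_apply]
  field_simp
  unfold Dn
  ring

lemma hP (s : ℝ) : HasDerivAt (PP a v r)
    ((a + 1) * Real.exp (r s) * (ell a s (v s) * v s + F a s (v s))) s :=
  (((h.hr s).exp.const_mul (a + 1)).mul (h.hv s)).congr_deriv (by ring)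

lemma hR (s : ℝ) : HasDerivAt (RR a r) (-((a + 1) * Real.exp (r s) * ell a s (v s))) s :=
  (((h.hr s).exp.const_mul (a + 1)).neg).congr_deriv (by ring)

lemma hdiv (s : ℝ) :
    deriv (fun s => (PP a v r s ^ 2 + RR a r s ^ 2) * PP a v r s) s +
      (mu + 3 * a) * ((PP a v r s ^ 2 + RR a r s ^ 2) * RR a r s) -
      s * deriv (fun s => (PP a v r s ^ 2 + RR a r s ^ 2) * RR a r s) s = 0 := by
  have h1 := ((h.hP s).pow 2).add ((h.hR s).pow 2)
  have h2 := (h1.mul (h.hP s)).deriv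
  have h3 := (h1.mul (h.hR s)).deriv
  erw [h2, h3]
  have := (Dn_pos s (v s)).ne'
  simp only [PP, RR, ell, F, Pi.add_apply, Pi.pow_apply]
  field_simp
  unfold Dn
  ring

lemma v_lo {s : ℝ} (hs : 0 ≤ s) : mu / 3 * s ≤ v s := by
  have h1 := h.lo s hs
  have h2 : 0 ≤ mu * s := by unfold mu; positivity
  have h3 : 0 ≤ v s := nonneg_of_mul_nonneg_right (by linarith) (by linarith [h.ha.1] : 0 < 3 * a)
  nlinarith [h.ha.2]

lemma v_nonneg {s : ℝ} (hs : 0 ≤ s) : 0 ≤ v s :=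
  le_trans (by unfold mu; positivity) (h.v_lo hs)

lemma hf (s : ℝ) : HasDerivAt (fun s => gg v r s * ww a s)
    ((a + 1) * (Real.exp (r s) * ww a s) * (v s + s) / (1 + s ^ 2)) s := by
  refine ((h.hg s).mul (ww_deriv a s)).congr_deriv ?_
  simp only [PP, gg]
  field_simp
  ring

lemma r_le {s : ℝ} (hs : 0 ≤ s) (h1 : s ≤ 1 / 1000) : Real.exp (r s) ≤ 1003 / 1000 := by
  have := le_of_deriv (h := fun s => 2 * s - r s) hs
    (fun x _ => (line_deriv0 2 x).sub (h.hr x)) (fun x hx => ?_)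
  · simp only [h.r0] at this
    have e : r s ≤ 1 / 500 := by linarith
    refine (Real.exp_le_exp.2 e).trans ?_
    refine (Real.exp_bound_div_one_sub_of_interval' (by norm_num) (by norm_num)).le.trans ?_
    norm_num
  · rw [sub_nonneg, ell, div_le_iff₀ (Dn_pos _ _)]
    have l1 := h.lo x hx.1
    have l2 := h.v_nonneg hx.1
    have x0 := hx.1
    have x1 : x ≤ 1 / 1000 := hx.2.trans h1
    obtain ⟨a1, a2⟩ := h.ha
    generalize v x = y at *
    have e1 : (mu + 3 * a) * x * (1 + y ^ 2) ≤ 3 * a * (y + x) * (1 + y ^ 2) :=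
      mul_le_mul_of_nonneg_right (by linarith) (by positivity)
    have e2 : a * (2 * y + 3 * x + x * y ^ 2) ≤ 1 * (2 * y + 3 * x + x * y ^ 2) :=
      mul_le_mul_of_nonneg_right a2 (by positivity)
    have e3 : x * y ^ 2 ≤ 1 * y ^ 2 := mul_le_mul_of_nonneg_right (by linarith) (by positivity)
    have e4 : 0 ≤ x * y := by positivity
    unfold Dn
    nlinarith [sq_nonneg (y - 1), sq_nonneg (x * y), sq_nonneg x]

lemma g_le {s : ℝ} (hs : 0 ≤ s) (h1 : s ≤ 1 / 1000) :
    gg v r s ≤ 1003 / 1000 * (41 / 120 * mu * s ^ 2 + 2000 * s) - 1 := by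
  have hd : ∀ x, HasDerivAt (fun s : ℝ => 1003 / 1000 * (41 / 120 * mu * s ^ 2 + 2000 * s))
      (1003 / 1000 * (2 * U x)) x := fun x =>
    ((((hasDerivAt_pow 2 x).const_mul _).add (line_deriv0 2000 x)).const_mul _).congr_deriv
      (by unfold U; simp; ring)
  have := le_of_deriv hs (fun x _ => (hd x).sub (h.hg x)) (fun x hx => ?_)
  · simp only [Pi.sub_apply, gg, h.r0] at this ⊢
    simp at this
    linarith
  · have e1 := h.r_le hx.1 (hx.2.trans h1)
    have e2 := h.hi x hx.1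
    have e3 := h.v_nonneg hx.1
    have e4 : (a + 1) * Real.exp (r x) ≤ 2 * (1003 / 1000) :=
      mul_le_mul (by linarith [h.ha.2]) e1 (by positivity) (by norm_num)
    have e5 := mul_le_mul e4 e2 e3 (by norm_num)
    unfold PP
    linarith

end Sol

lemma ww_bounds {a : ℝ} (ha : a ∈ Icc (49 / 50 : ℝ) 1) (s : ℝ) :
    1 ≤ ww a s * (1 + s ^ 2) ∧ ww a s ≤ 1 := by
  have h : (1 : ℝ) ≤ 1 + s ^ 2 := by nlinarith
  constructor
  · unfold ww
    rw [← Real.rpow_add_one (by positivity)]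
    exact Real.one_le_rpow h (by linarith [ha.2])
  · exact Real.rpow_le_one_of_one_le_of_nonpos h (by linarith [ha.1])

end Pool.Agent.H.MP_f4f698_an
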