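import Pool.Agent.H.MP_f4f698_an.C

open Set Filter Topology Metric

namespace Pool.Agent.H.MP_f4f698_an

structure Prof (a M M1 M2 C : ℝ) (g P R : ℝ → ℝ) : Prop where
  ha : a ∈ Icc (49 / 50 : ℝ) 1
  hg : ∀ s, HasDerivAt g (P s) s
  hR : ∀ s, R s = (a + 1) * g s - s * P s
  cP : ContDiff ℝ 1 P
  cR : ContDiff ℝ 1 R
  hdiv : ∀ s, deriv (fun s => (P s ^ 2 + R s ^ 2) * P s) s +
    (mu + 3 * a) * ((P s ^ 2 + R s ^ 2) * R s) -
      s * deriv (fun s => (P s ^ 2 + R s ^ 2) * R s) s = 0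
  l0 : Tendsto (fun s => g s * (1 + s ^ 2) ^ (-(a + 1) / 2)) atTop (𝓝 M)
  l0' : Tendsto (fun s => g s * (1 + s ^ 2) ^ (-(a + 1) / 2)) atBot (𝓝 M)
  l1 : Tendsto (fun s => P s * (1 + s ^ 2) ^ (-a / 2)) atTop (𝓝 M1)
  l1' : Tendsto (fun s => P s * (1 + s ^ 2) ^ (-a / 2)) atBot (𝓝 M2)
  b0 : ∀ s, |g s * (1 + s ^ 2) ^ (-(a + 1) / 2)| ≤ C
  b1 : ∀ s, |P s * (1 + s ^ 2) ^ (-a / 2)| ≤ C
  b2 : ∀ s, |R s * (1 + s ^ 2) ^ (-a / 2)| * √(1 + s ^ 2) ≤ C
  g0 : g 0 = -1
  ub : ∀ s, g s * (1 + s ^ 2) ^ (-(a + 1) / 2) * (1 + s ^ 2) ≤ 41 / 100 * mu * s ^ 2 - 849 / 1000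

lemma ww_even (a s : ℝ) : ww a (-s) = ww a s := by unfold ww; rw [neg_sq]

namespace Sol
variable {a : ℝ} {v r : ℝ → ℝ} (h : Sol a v r)
include h

lemma g_even (s : ℝ) : gg v r (-s) = gg v r s := by
  unfold gg; rw [h.odd, h.even]; ring

lemma reg1 {s : ℝ} (hs : 0 ≤ s) (h1 : s ≤ 1 / 1000) :
    gg v r s * ww a s * (1 + s ^ 2) ≤ 41 / 100 * mu * s ^ 2 - 849 / 1000 := by
  have e1 := h.g_le hs h1
  obtain ⟨w1, w2⟩ := ww_bounds h.ha s
  have w0 := ww_pos a s
  have e2 : 2000 * s ≤ mu / 15 * s ^ 2 + 3 / 20 := by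
    unfold mu; nlinarith [sq_nonneg (20000 * s - 3)]
  have s2 : s ^ 2 ≤ 1 / 1000000 := by nlinarith
  rw [mul_assoc]
  unfold mu at *
  rcases le_total (gg v r s) 0 with g0 | g0
  · have := mul_le_mul_of_nonpos_left w1 g0
    nlinarith [sq_nonneg s]
  · have w3 : ww a s * (1 + s ^ 2) ≤ 1 * (1 + s ^ 2) :=
      mul_le_mul_of_nonneg_right w2 (by positivity)
    have := mul_le_mul_of_nonneg_left w3 g0
    have e3 : gg v r s ≤ 41 := by nlinarith
    have e4 : gg v r s * s ^ 2 ≤ 41 * s ^ 2 := mul_le_mul_of_nonneg_right e3 (by positivity)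
    nlinarith [sq_nonneg s]

lemma reg2 {s : ℝ} (h1 : 1 / 1000 ≤ s) :
    gg v r s * ww a s * (1 + s ^ 2) ≤ 41 / 100 * mu * s ^ 2 - 849 / 1000 := by
  have pos : ∀ x : ℝ, 1 / 1000 ≤ x → 0 < mu / 3 * x ^ 2 - 1 := fun x hx => by
    unfold mu; nlinarith
  have d1 : ∀ x : ℝ, HasDerivAt (fun s : ℝ => 1 + s ^ 2) (2 * x) x := fun x => by
    simpa using (hasDerivAt_pow 2 x).const_add 1
  have d2 : ∀ x : ℝ, HasDerivAt (fun s : ℝ => mu / 3 * s ^ 2 - 1) (mu / 3 * (2 * x)) x :=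
    fun x => by simpa using ((hasDerivAt_pow 2 x).const_mul (mu / 3)).sub_const 1
  have := le_of_deriv h1
    (fun x hx => ((((h.hf x).mul (d1 x)).div (d2 x) (pos x hx.1).ne').neg)) (fun x hx => ?_)
  · simp only [Pi.neg_apply, Pi.div_apply, Pi.mul_apply, neg_le_neg_iff] at this
    rw [div_le_div_iff₀ (pos s h1) (pos _ le_rfl)] at this
    have e1 := h.g_le (s := 1 / 1000) (by norm_num) le_rfl
    obtain ⟨w1, w2⟩ := ww_bounds h.ha (1 / 1000)
    have w0 := ww_pos a (1 / 1000)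
    have e2 : gg v r (1 / 1000) * ww a (1 / 1000) ≤ 35.28 := by
      unfold mu at e1
      rcases le_total (gg v r (1 / 1000)) 0 with g0 | g0
      · nlinarith
      · nlinarith
    have e3 : gg v r (1 / 1000) * ww a (1 / 1000) * (1 + (1 / 1000) ^ 2) ≤ 35.3 := by nlinarith
    have e4 := mul_le_mul_of_nonneg_right e3 (pos s h1).le
    unfold mu at *
    nlinarith [sq_nonneg s]
  · have x0 : 0 ≤ x := by linarith [hx.1]
    rw [neg_nonneg]
    refine div_nonpos_of_nonpos_of_nonneg ?_ (by positivity)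
    have p1 := pos x hx.1
    have l1 := h.v_lo x0
    have l2 := h.v_nonneg x0
    have q0 : 0 < Real.exp (r x) * ww a x := mul_pos (Real.exp_pos _) (ww_pos _ _)
    simp only [Pi.mul_apply, gg]
    have e : ((a + 1) * (Real.exp (r x) * ww a x) * (v x + x) / (1 + x ^ 2) * (1 + x ^ 2) +
        Real.exp (r x) * (x * v x - 1) * ww a x * (2 * x)) * (mu / 3 * x ^ 2 - 1) -
        Real.exp (r x) * (x * v x - 1) * ww a x * (1 + x ^ 2) * (mu / 3 * (2 * x)) =
        (Real.exp (r x) * ww a x) * ((a + 1) * ((v x + x) * (mu / 3 * x ^ 2 - 1)) -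
          2 * x * (mu / 3 + 1) * (x * v x - 1)) := by
      field_simp
      ring
    rw [e]
    refine mul_nonpos_of_nonneg_of_nonpos q0.le ?_
    have e1 : (a + 1) * ((v x + x) * (mu / 3 * x ^ 2 - 1)) ≤ 2 * ((v x + x) * (mu / 3 * x ^ 2 - 1)) :=
      mul_le_mul_of_nonneg_right (by linarith [h.ha.2]) (by positivity)
    have e2 : mu / 3 * x * (1 + x ^ 2) ≤ v x * (1 + x ^ 2) :=
      mul_le_mul_of_nonneg_right l1 (by positivity)
    nlinarith

lemma ub (s : ℝ) : gg v r s * ww a s * (1 + s ^ 2) ≤ 41 / 100 * mu * s ^ 2 - 849 / 1000 := by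
  wlog hs : 0 ≤ s generalizing s
  · have := this (-s) (by linarith)
    rwa [h.g_even, ww_even, neg_sq] at this
  rcases le_total s (1 / 1000) with h1 | h1
  exacts [h.reg1 hs h1, h.reg2 h1]

lemma f_le (s : ℝ) : gg v r s * ww a s ≤ 41 / 100 * mu := by
  have := h.ub s
  have p : 0 < 1 + s ^ 2 := by positivity
  refine le_of_mul_le_mul_right (this.trans ?_) p
  unfold mu; nlinarith

lemma f_mono {s t : ℝ} (hs : 0 ≤ s) (hst : s ≤ t) : gg v r s * ww a s ≤ gg v r t * ww a t := by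
  refine le_of_deriv hst (fun x _ => h.hf x) (fun x hx => ?_)
  have x0 : 0 ≤ x := hs.trans hx.1
  have := h.v_nonneg x0
  have := ww_pos a x
  have := h.ha.1
  positivity

lemma g0 : gg v r 0 = -1 := by simp [gg, h.r0]

lemma f_abs (s : ℝ) : |gg v r s * ww a s| ≤ 41 / 100 * mu := by
  wlog hs : 0 ≤ s generalizing s
  · have := this (-s) (by linarith)
    rwa [h.g_even, ww_even] at this
  have := h.f_mono le_rfl hs
  rw [h.g0] at this
  have e : ww a 0 = 1 := by simp [ww]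
  rw [e] at this
  exact abs_le.2 ⟨by unfold mu; linarith, h.f_le s⟩

lemma f_lim : ∃ M, Tendsto (fun s => gg v r s * ww a s) atTop (𝓝 M) := by
  have m : Monotone fun s : ℝ => gg v r (max s 0) * ww a (max s 0) := fun s t hst =>
    h.f_mono (le_max_right _ _) (max_le_max_right _ hst)
  refine ⟨_, (tendsto_atTop_ciSup m ⟨41 / 100 * mu, ?_⟩).congr' ?_⟩
  · rintro _ ⟨s, rfl⟩; exact h.f_le _
  · filter_upwards [eventually_ge_atTop 0] with s hs
    rw [max_eq_left hs]

lemma q_bd : ∃ C, ∀ s, Real.exp (r s) * ww a s * (1 + s ^ 2) ≤ C := by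
  have c : Continuous fun s => Real.exp (r s) * ww a s * (1 + s ^ 2) := by
    have := h.dr.continuous
    have : Continuous (ww a) := continuous_iff_continuousAt.2 fun s => (ww_deriv a s).continuousAt
    fun_prop
  obtain ⟨C, hC⟩ := (isCompact_Icc (a := (0 : ℝ)) (b := 1)).exists_bound_of_continuousOn
    c.continuousOn
  refine ⟨max C 3, fun s => ?_⟩
  wlog hs : 0 ≤ s generalizing s
  · have := this (-s) (by linarith)
    rwa [h.even, ww_even, neg_sq] at this
  rcases le_total s 1 with h1 | h1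
  · exact ((le_abs_self _).trans (hC s ⟨hs, h1⟩)).trans (le_max_left _ _)
  · refine le_trans ?_ (le_max_right _ _)
    have e1 := h.f_le s
    have e2 := h.v_lo hs
    have q0 : 0 < Real.exp (r s) * ww a s := mul_pos (Real.exp_pos _) (ww_pos _ _)
    have e3 : mu / 3 * s * s ≤ v s * s := mul_le_mul_of_nonneg_right e2 hs
    have e4 : mu / 7 * (1 + s ^ 2) ≤ s * v s - 1 := by unfold mu at *; nlinarith
    have e5 := mul_le_mul_of_nonneg_left e4 q0.le
    unfold gg mu at *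
    nlinarith

lemma F1_lim {M : ℝ} (hM : Tendsto (fun s => gg v r s * ww a s) atTop (𝓝 M)) :
    Tendsto (fun s => PP a v r s * (1 + s ^ 2) ^ (-a / 2)) atTop (𝓝 ((a + 1) * M)) := by
  have t1 : Tendsto (fun s : ℝ => √(s⁻¹ ^ 2 + 1)) atTop (𝓝 1) := by
    have : Tendsto (fun s : ℝ => s⁻¹ ^ 2 + 1) atTop (𝓝 (0 ^ 2 + 1)) :=
      (tendsto_inv_atTop_zero.pow 2).add_const 1
    simpa using this.sqrt
  have big : ∀ s : ℝ, 1 ≤ s → 2 * s ≤ s * v s := fun s hs => by
    have := h.v_lo (s := s) (by linarith)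
    have e : 2 ≤ v s := by unfold mu at this; linarith
    nlinarith
  have t2 : Tendsto (fun s : ℝ => (s * v s)⁻¹) atTop (𝓝 0) := by
    refine tendsto_inv_atTop_zero.comp (tendsto_atTop_mono' _ ?_ tendsto_id)
    filter_upwards [eventually_ge_atTop 1] with s hs
    have := big s hs
    simp only [id]; linarith
  have t3 := ((hM.const_mul (a + 1)).mul t1).div (t2.const_sub 1) (by norm_num)
  simp only [mul_one, sub_zero, div_one] at t3
  refine t3.congr' ?_
  filter_upwards [eventually_ge_atTop 1] with s hs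
  have b := big s hs
  have s0 : 0 < s := by linarith
  have e : √(1 + s ^ 2) = s * √(s⁻¹ ^ 2 + 1) := by
    rw [show 1 + s ^ 2 = s ^ 2 * (s⁻¹ ^ 2 + 1) by field_simp, Real.sqrt_mul (by positivity),
      Real.sqrt_sq s0.le]
  have n1 : s * v s - 1 ≠ 0 := by linarith
  have n2 : v s ≠ 0 := by rintro e; rw [e] at b; linarith
  rw [ww_sqrt, e]
  simp only [Pi.div_apply, gg, PP]
  field_simp

theorem prof : ∃ M M1 M2 C, Prof a M M1 M2 C (gg v r) (PP a v r) (RR a r) := by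
  obtain ⟨M, hM⟩ := h.f_lim
  obtain ⟨C, hC⟩ := h.q_bd
  have C0 : 0 ≤ C := le_trans (by have := ww_pos a 0; positivity) (hC 0)
  have dv := h.dv
  have dr := h.dr
  have a0 := h.ha.1
  refine ⟨M, (a + 1) * M, -((a + 1) * M), mu + 2 * mu * C, h.ha, h.hg, fun s => ?_, ?_, ?_, h.hdiv,
    hM, ?_, h.F1_lim hM, ?_, fun s => ?_, fun s => ?_, fun s => ?_, h.g0, h.ub⟩
  · unfold gg PP RR; ring
  · unfold PP; fun_prop
  · unfold RR; fun_prop
  · refine (hM.comp tendsto_neg_atBot_atTop).congr fun s => ?_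
    simp only [Function.comp, h.g_even, ww_even]; rfl
  · refine ((h.F1_lim hM).comp tendsto_neg_atBot_atTop).neg.congr fun s => ?_
    simp only [Function.comp, PP, h.odd, h.even, neg_sq]; ring
  · refine (h.f_abs s).trans ?_
    unfold mu; linarith
  · have q0 : 0 < Real.exp (r s) * ww a s := mul_pos (Real.exp_pos _) (ww_pos _ _)
    have s1 : |s| ≤ √(1 + s ^ 2) := Real.abs_le_sqrt (by linarith)
    have s2 : 1 ≤ √(1 + s ^ 2) := Real.one_le_sqrt.2 (by nlinarith)
    have s3 : √(1 + s ^ 2) * √(1 + s ^ 2) = 1 + s ^ 2 := Real.mul_self_sqrt (by positivity)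
    have v1 : |v s| ≤ U |s| := by
      rcases le_total 0 s with hs | hs
      · rw [abs_of_nonneg hs, abs_of_nonneg (h.v_nonneg hs)]; exact h.hi s hs
      · have := h.hi (-s) (by linarith)
        have e := h.v_nonneg (s := -s) (by linarith)
        rw [h.odd] at this e
        rw [abs_of_nonpos hs, abs_of_nonpos (by linarith)]; exact this
    have v2 : |v s| ≤ mu * √(1 + s ^ 2) := by unfold U mu at *; linarith
    have e : |PP a v r s * (1 + s ^ 2) ^ (-a / 2)| =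
        (a + 1) * (Real.exp (r s) * ww a s) * (|v s| * √(1 + s ^ 2)) := by
      rw [ww_sqrt, PP]
      simp only [abs_mul, abs_of_pos (Real.exp_pos _), abs_of_pos (ww_pos _ _),
        abs_of_nonneg (Real.sqrt_nonneg _), abs_of_pos (show 0 < a + 1 by linarith)]
      ring
    rw [e]
    have e1 : |v s| * √(1 + s ^ 2) ≤ mu * (1 + s ^ 2) := by
      have := mul_le_mul_of_nonneg_right v2 (Real.sqrt_nonneg (1 + s ^ 2))
      rwa [mul_assoc, s3] at this
    have e2 : (a + 1) * (Real.exp (r s) * ww a s) ≤ 2 * (Real.exp (r s) * ww a s) :=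
      mul_le_mul_of_nonneg_right (by linarith [h.ha.2]) q0.le
    have e3 := mul_le_mul e2 e1 (by positivity) (by positivity)
    have := hC s
    unfold mu at *
    nlinarith
  · have q0 : 0 < Real.exp (r s) * ww a s := mul_pos (Real.exp_pos _) (ww_pos _ _)
    have s3 : √(1 + s ^ 2) * √(1 + s ^ 2) = 1 + s ^ 2 := Real.mul_self_sqrt (by positivity)
    have e : |RR a r s * (1 + s ^ 2) ^ (-a / 2)| * √(1 + s ^ 2) =
        (a + 1) * (Real.exp (r s) * ww a s * (√(1 + s ^ 2) * √(1 + s ^ 2))) := by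
      rw [ww_sqrt, RR]
      simp only [abs_mul, abs_neg, abs_of_pos (Real.exp_pos _), abs_of_pos (ww_pos _ _),
        abs_of_nonneg (Real.sqrt_nonneg _), abs_of_pos (show 0 < a + 1 by linarith)]
      ring
    rw [e, s3]
    have e2 := mul_le_mul (show a + 1 ≤ 2 by linarith [h.ha.2]) (hC s) (by positivity) (by norm_num)
    unfold mu
    nlinarith

end Sol

theorem exists_prof : ∃ a M M1 M2 C g P R, Prof a M M1 M2 C g P R := by
  obtain ⟨a, v, r, h⟩ := exists_sol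
  obtain ⟨M, M1, M2, C, hp⟩ := h.prof
  exact ⟨a, M, M1, M2, C, _, _, _, hp⟩

end Pool.Agent.H.MP_f4f698_an
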