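import Pool.Agent.H.MP_f4f698_an.D

open Set Filter Topology Metric
open scoped RealInnerProductSpace

namespace Pool.Agent.H.MP_f4f698_an

abbrev Sp (n : ℕ) := EuclideanSpace ℝ (Fin n)

variable {n : ℕ} (o : Fin n)

noncomputable def ee (o : Fin n) : Sp n := EuclideanSpace.single o 1

noncomputable def Z : Sp n →L[ℝ] Sp n :=
  ContinuousLinearMap.id ℝ _ - (EuclideanSpace.proj o : Sp n →L[ℝ] ℝ).smulRight (ee o)

lemma Z_eq (y : Sp n) : Z o y = y - y o • ee o := rfl

lemma Z_apply (y : Sp n) (i : Fin n) : Z o y i = if i = o then 0 else y i := by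
  rw [Z_eq]
  by_cases h : i = o
  · subst h; simp [ee]
  · simp [ee, h]

lemma inner_ee (i : Fin n) (h : Sp n) : ⟪ee i, h⟫ = h i := by
  simp [ee, EuclideanSpace.inner_single_left]

lemma inner_ee' (i : Fin n) (h : Sp n) : ⟪h, ee i⟫ = h i := by
  rw [real_inner_comm, inner_ee]

lemma inner_Z (y h : Sp n) : ⟪Z o y, Z o h⟫ = ⟪Z o y, h⟫ := by
  rw [Z_eq o h, inner_sub_right, inner_smul_right, inner_ee', Z_apply]; simp

lemma norm_ee : ‖ee o‖ = 1 := by simp [ee]

lemma norm_comb (p q : ℝ) (y : Sp n) :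
    ‖p • ee o + q • Z o y‖ ^ 2 = p ^ 2 + q ^ 2 * ‖Z o y‖ ^ 2 := by
  rw [norm_add_sq_real, inner_smul_left, inner_smul_right, inner_ee, Z_apply, norm_smul, norm_smul,
    norm_ee]
  simp [mul_pow]

lemma norm_sq_eq (y : Sp n) : ‖y‖ ^ 2 = y o ^ 2 + ‖Z o y‖ ^ 2 := by
  have := norm_comb o (y o) 1 y
  rw [one_smul, Z_eq, add_sub_cancel] at this
  rw [this, Z_eq]; ring

lemma abs_le_Z {i : Fin n} (hi : i ≠ o) (y : Sp n) : |y i| ≤ ‖Z o y‖ := by
  have := EuclideanSpace.norm_eq (Z o y) ▸ PiLp.norm_apply_le (Z o y) i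
  rw [Z_apply, if_neg hi] at this
  rw [EuclideanSpace.norm_eq]
  exact this

lemma hZ2 (y : Sp n) : HasFDerivAt (fun y => ‖Z o y‖ ^ 2) (innerSL ℝ ((2 : ℝ) • Z o y)) y := by
  refine ((Z o).hasFDerivAt (x := y)).norm_sq.congr_fderiv ?_
  ext h
  simp [inner_Z]

lemma hZ {y : Sp n} (hy : ‖Z o y‖ ≠ 0) :
    HasFDerivAt (fun y => ‖Z o y‖) (innerSL ℝ (‖Z o y‖⁻¹ • Z o y)) y := by
  have := (hZ2 o y).sqrt (pow_ne_zero 2 hy)
  simp only [Real.sqrt_sq (norm_nonneg _)] at this
  refine this.congr_fderiv ?_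
  ext h
  simp only [smul_apply, innerSL_apply_apply, inner_smul_left, smul_eq_mul]
  simp
  field_simp

lemma hX (y : Sp n) (i : Fin n) : HasFDerivAt (fun y : Sp n => y i) (innerSL ℝ (ee i)) y := by
  refine ((EuclideanSpace.proj i : Sp n →L[ℝ] ℝ).hasFDerivAt (x := y)).congr_fderiv ?_
  ext h
  simp [inner_ee]

lemma hom {y : Sp n} (hy : ‖Z o y‖ ≠ 0) {H : ℝ → ℝ} {H' : ℝ} (b : ℝ)
    (hH : HasDerivAt H H' (y o / ‖Z o y‖)) :
    HasFDerivAt (fun y => ‖Z o y‖ ^ b * H (y o / ‖Z o y‖))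
      (innerSL ℝ ((‖Z o y‖ ^ (b - 1) * H') • ee o +
        (‖Z o y‖ ^ (b - 1) * (b * H (y o / ‖Z o y‖) - y o / ‖Z o y‖ * H') / ‖Z o y‖) • Z o y)) y := by
  have h1 := (hZ o hy).rpow_const (p := b) (Or.inl hy)
  have h2 : HasFDerivAt (fun y : Sp n => y o / ‖Z o y‖) _ y :=
    (hX y o).mul ((hasDerivAt_inv hy).comp_hasFDerivAt y (hZ o hy))
  have h3 := hH.comp_hasFDerivAt y h2
  refine (h1.mul h3).congr_fderiv ?_
  ext h
  simp only [add_apply, smul_apply, innerSL_apply_apply,
    inner_smul_left, inner_add_left, smul_eq_mul, Function.comp, conj_trivial]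
  rw [Real.rpow_sub_one hy]
  field_simp
  ring

noncomputable def T (F : ℝ → ℝ) (L L' b : ℝ) (y : Sp n) : ℝ :=
  ‖y‖ ^ b * (if ‖Z o y‖ = 0 then (if 0 ≤ y o then L else L') else F (y o / ‖Z o y‖))

lemma cont_T {F : ℝ → ℝ} {L L' b C : ℝ} (hb : 0 < b) (hF : Continuous F) (hC : ∀ s, |F s| ≤ C)
    (h1 : Tendsto F atTop (𝓝 L)) (h2 : Tendsto F atBot (𝓝 L')) : Continuous (T o F L L' b) := by
  have cn : Continuous fun y : Sp n => ‖y‖ ^ b :=
    continuous_norm.rpow_const fun _ => Or.inr hb.le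
  have cZ : Continuous fun y : Sp n => ‖Z o y‖ := by fun_prop
  have cX : Continuous fun y : Sp n => y o := by fun_prop
  rw [continuous_iff_continuousAt]
  intro y
  by_cases hy : ‖Z o y‖ = 0
  · have inv : Tendsto (fun w : Sp n => ‖Z o w‖⁻¹) (𝓝 y ⊓ 𝓟 {w | ¬ ‖Z o w‖ = 0}) atTop := by
      refine tendsto_inv_nhdsGT_zero.comp (tendsto_nhdsWithin_iff.2 ⟨?_, ?_⟩)
      · rw [← hy]; exact (cZ.tendsto y).mono_left inf_le_left
      · refine eventually_inf_principal.2 (Eventually.of_forall fun w hw => ?_)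
        exact lt_of_le_of_ne (norm_nonneg _) (Ne.symm hw)
    rcases lt_trichotomy (y o) 0 with hx | hx | hx
    · refine cn.continuousAt.mul ?_
      simp only [ContinuousAt, if_pos hy, if_neg (not_le.2 hx)]
      refine Tendsto.if ?_ ?_
      · refine tendsto_const_nhds.congr' (eventually_inf_principal.2 ?_)
        filter_upwards [(cX.tendsto y).eventually (gt_mem_nhds hx)] with w hw _
        rw [if_neg (not_le.2 hw)]
      · exact h2.comp (((cX.tendsto y).mono_left inf_le_left).neg_mul_atTop hx inv)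
    · have y0 : y = 0 := by
        have := norm_sq_eq o y
        rw [hx, hy] at this
        simpa using this
      subst y0
      have e : T o F L L' b 0 = 0 := by simp [T, hb.ne']
      rw [ContinuousAt, e]
      refine squeeze_zero_norm (a := fun w : Sp n => ‖w‖ ^ b * max C (max |L| |L'|)) (fun w => ?_) ?_
      · rw [T, norm_mul, Real.norm_of_nonneg (by positivity)]
        refine mul_le_mul_of_nonneg_left ?_ (by positivity)
        split_ifs
        · exact le_max_of_le_right (le_max_left _ _)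
        · exact le_max_of_le_right (le_max_right _ _)
        · exact le_max_of_le_left (hC _)
      · have := (cn.tendsto 0).mul_const (max C (max |L| |L'|))
        simpa [hb.ne'] using this
    · refine cn.continuousAt.mul ?_
      simp only [ContinuousAt, if_pos hy, if_pos hx.le]
      refine Tendsto.if ?_ ?_
      · refine tendsto_const_nhds.congr' (eventually_inf_principal.2 ?_)
        filter_upwards [(cX.tendsto y).eventually (lt_mem_nhds hx)] with w hw _
        rw [if_pos hw.le]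
      · exact h1.comp (((cX.tendsto y).mono_left inf_le_left).pos_mul_atTop hx inv)
  · refine cn.continuousAt.mul ?_
    refine (hF.continuousAt.comp (cX.continuousAt.div cZ.continuousAt hy)).congr ?_
    filter_upwards [cZ.continuousAt.eventually_ne hy] with w hw
    simp [hw]

lemma T_off {y : Sp n} (hy : ‖Z o y‖ ≠ 0) (H : ℝ → ℝ) (L L' b : ℝ) :
    T o (fun s => H s * (1 + s ^ 2) ^ (-b / 2)) L L' b y = ‖Z o y‖ ^ b * H (y o / ‖Z o y‖) := by
  have z0 : 0 < ‖Z o y‖ := lt_of_le_of_ne (norm_nonneg _) (Ne.symm hy)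
  have e : ‖y‖ = ‖Z o y‖ * (1 + (y o / ‖Z o y‖) ^ 2) ^ (1 / 2 : ℝ) := by
    rw [← Real.sqrt_eq_rpow, ← Real.sqrt_sq z0.le, ← Real.sqrt_mul (by positivity),
      Real.sqrt_sq z0.le, ← Real.sqrt_sq (norm_nonneg y), norm_sq_eq o y]
    congr 1
    field_simp
    ring
  have p : 0 < 1 + (y o / ‖Z o y‖) ^ 2 := by positivity
  rw [T, if_neg hy, e, Real.mul_rpow z0.le (by positivity), ← Real.rpow_mul p.le]
  have : (1 + (y o / ‖Z o y‖) ^ 2) ^ (1 / 2 * b) * (1 + (y o / ‖Z o y‖) ^ 2) ^ (-b / 2) = 1 := by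
    rw [← Real.rpow_add p, show 1 / 2 * b + -b / 2 = 0 by ring, Real.rpow_zero]
  linear_combination (‖Z o y‖ ^ b * H (y o / ‖Z o y‖)) * this

lemma glue {j : Fin n} {u : Sp n → ℝ} {G : Sp n → Sp n} (hu : Continuous u) (hG : Continuous G)
    (h : ∀ y : Sp n, y j ≠ 0 → HasFDerivAt u (innerSL ℝ (G y)) y) (y : Sp n) :
    HasFDerivAt u (innerSL ℝ (G y)) y := by
  have cX : Continuous fun y : Sp n => y j := by fun_prop
  have key : ∀ c : ℝ, c ≠ 0 → HasFDerivWithinAt u (innerSL ℝ (G y)) {w : Sp n | 0 ≤ c * w j} y := by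
    intro c hc
    have ne : ∀ w : Sp n, 0 < c * w j → w j ≠ 0 := fun w hw e => by simp [e] at hw
    have := hasFDerivWithinAt_closure_of_tendsto_fderiv (f := u) (s := {w : Sp n | 0 < c * w j})
      (x := y) (f' := innerSL ℝ (G y))
      (fun w hw => (h w (ne w hw)).differentiableAt.differentiableWithinAt) ?_
      (isOpen_lt continuous_const (by fun_prop)) (fun w _ => hu.continuousWithinAt) ?_
    · refine this.mono fun w hw => ?_
      have t : Tendsto (fun t : ℝ => w + (t * c) • ee j) (𝓝[>] 0) (𝓝 w) := by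
        refine tendsto_nhdsWithin_of_tendsto_nhds (Continuous.tendsto' (by fun_prop) _ _ (by simp))
      refine mem_closure_of_tendsto t ?_
      filter_upwards [self_mem_nhdsWithin] with t ht
      have ht : 0 < t := ht
      have hw : 0 ≤ c * w j := hw
      have : 0 < t * c ^ 2 := by positivity
      simp [ee]
      nlinarith
    · exact convex_halfSpace_gt (f := fun w : Sp n => c * w j)
        ⟨fun a b => by simp [mul_add], fun a b => by simp; ring⟩ 0
    · have c1 : Continuous fun w => innerSL ℝ (G w) := (innerSL ℝ).continuous.comp hG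
      refine ((c1.tendsto y).mono_left nhdsWithin_le_nhds).congr' ?_
      filter_upwards [self_mem_nhdsWithin] with w hw
      exact (h w (ne w hw)).fderiv.symm
  have := (key 1 one_ne_zero).union (key (-1) (by norm_num))
  rw [← hasFDerivWithinAt_univ]
  refine this.mono fun w _ => ?_
  rcases le_total 0 (w j) with hw | hw
  · left; simpa using hw
  · right; simpa using hw

end Pool.Agent.H.MP_f4f698_an
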