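import Pool.Agent.H.MP_f4f698_an.E

open Set Filter Topology Metric MeasureTheory
open scoped RealInnerProductSpace

namespace Pool.Agent.H.MP_f4f698_an

variable {n : ℕ} (o : Fin n)

noncomputable def uu (a M : ℝ) (g : ℝ → ℝ) : Sp n → ℝ :=
  T o (fun s => g s * (1 + s ^ 2) ^ (-(a + 1) / 2)) M M (a + 1)

noncomputable def T1 (a M1 M2 : ℝ) (P : ℝ → ℝ) : Sp n → ℝ :=
  T o (fun s => P s * (1 + s ^ 2) ^ (-a / 2)) M1 M2 a

noncomputable def T2 (a : ℝ) (R : ℝ → ℝ) : Sp n → ℝ :=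
  T o (fun s => R s * (1 + s ^ 2) ^ (-a / 2)) 0 0 a

noncomputable def GG (a M1 M2 : ℝ) (P R : ℝ → ℝ) (y : Sp n) : Sp n :=
  T1 o a M1 M2 P y • ee o + (T2 o a R y / ‖Z o y‖) • Z o y

noncomputable def WW (a M1 M2 : ℝ) (P R : ℝ → ℝ) (y : Sp n) : Sp n :=
  ‖GG o a M1 M2 P R y‖ ^ 2 • GG o a M1 M2 P R y

lemma cont_w (b : ℝ) : Continuous fun s : ℝ => (1 + s ^ 2) ^ b :=
  Continuous.rpow_const (by fun_prop) fun s => Or.inl (by positivity)

lemma norm_sqrt {y : Sp n} (hy : ‖Z o y‖ ≠ 0) :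
    ‖y‖ = ‖Z o y‖ * √(1 + (y o / ‖Z o y‖) ^ 2) := by
  have z0 : 0 < ‖Z o y‖ := lt_of_le_of_ne (norm_nonneg _) (Ne.symm hy)
  rw [← Real.sqrt_sq z0.le, ← Real.sqrt_mul (by positivity),
    Real.sqrt_sq z0.le, ← Real.sqrt_sq (norm_nonneg y), norm_sq_eq o y]
  congr 1
  field_simp
  ring

namespace Prof
variable {a M M1 M2 C : ℝ} {g P R : ℝ → ℝ} (h : Prof a M M1 M2 C g P R)
include h

lemma a0 : 0 < a := by linarith [h.ha.1]

lemma C0 : 0 ≤ C := (abs_nonneg _).trans (h.b0 0)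

lemma cg : Continuous g := continuous_iff_continuousAt.2 fun s => (h.hg s).continuousAt

lemma cu : Continuous (uu o a M g) :=
  cont_T o (by linarith [h.a0]) (h.cg.mul (cont_w _)) h.b0 h.l0 h.l0'

lemma c1 : Continuous (T1 o a M1 M2 P) :=
  cont_T o h.a0 (h.cP.continuous.mul (cont_w _)) h.b1 h.l1 h.l1'

lemma b2' (s : ℝ) : |R s * (1 + s ^ 2) ^ (-a / 2)| ≤ C := by
  have s2 : 1 ≤ √(1 + s ^ 2) := Real.one_le_sqrt.2 (by nlinarith)
  exact (le_mul_of_one_le_right (abs_nonneg _) s2).trans (h.b2 s)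

lemma l2 {l : Filter ℝ} (hl : Tendsto (fun s : ℝ => |s|) l atTop) :
    Tendsto (fun s => R s * (1 + s ^ 2) ^ (-a / 2)) l (𝓝 0) := by
  refine squeeze_zero_norm' (a := fun s => C / |s|) ?_ (tendsto_const_nhds.div_atTop hl)
  filter_upwards [hl.eventually_gt_atTop 0] with s hs
  have s1 : |s| ≤ √(1 + s ^ 2) := Real.abs_le_sqrt (by linarith)
  rw [le_div_iff₀ hs]
  exact (mul_le_mul_of_nonneg_left s1 (abs_nonneg _)).trans (h.b2 s)

lemma c2 : Continuous (T2 o a R) :=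
  cont_T o h.a0 (h.cR.continuous.mul (cont_w _)) h.b2' (h.l2 tendsto_abs_atTop_atTop)
    (h.l2 tendsto_abs_atBot_atTop)

lemma cG : Continuous (GG o a M1 M2 P R) := by
  refine ((h.c1 o).smul continuous_const).add ?_
  have cZ : Continuous fun y : Sp n => ‖Z o y‖ := by fun_prop
  rw [continuous_iff_continuousAt]
  intro y
  by_cases hy : ‖Z o y‖ = 0
  · have e : T2 o a R y = 0 := by simp [T2, T, hy]
    rw [ContinuousAt, e, zero_div, zero_smul]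
    refine squeeze_zero_norm (a := fun w => |T2 o a R w|) (fun w => ?_) ?_
    · rw [norm_smul, norm_div, norm_norm, Real.norm_eq_abs]
      rcases eq_or_ne ‖Z o w‖ 0 with e | e
      · simp [e]
      · rw [div_mul_cancel₀ _ e]
    · have := ((h.c2 o).tendsto y).abs
      rwa [e, abs_zero] at this
  · exact ((h.c2 o).continuousAt.div cZ.continuousAt hy).smul (by fun_prop)

omit h in
lemma G_off {y : Sp n} (hy : ‖Z o y‖ ≠ 0) : GG o a M1 M2 P R y =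
    (‖Z o y‖ ^ a * P (y o / ‖Z o y‖)) • ee o +
      (‖Z o y‖ ^ a * R (y o / ‖Z o y‖) / ‖Z o y‖) • Z o y := by
  rw [GG, T1, T2, T_off o hy, T_off o hy]

lemma du_off {y : Sp n} (hy : ‖Z o y‖ ≠ 0) :
    HasFDerivAt (uu o a M g) (innerSL ℝ (GG o a M1 M2 P R y)) y := by
  have cZ : Continuous fun y : Sp n => ‖Z o y‖ := by fun_prop
  have := hom o hy (a + 1) (h.hg (y o / ‖Z o y‖))
  rw [add_sub_cancel_right, ← h.hR, ← G_off o hy] at this
  refine this.congr_of_eventuallyEq ?_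
  filter_upwards [cZ.continuousAt.eventually_ne hy] with w hw
  exact T_off o hw g M M (a + 1)

lemma du {j : Fin n} (hj : j ≠ o) (y : Sp n) :
    HasFDerivAt (uu o a M g) (innerSL ℝ (GG o a M1 M2 P R y)) y := by
  refine glue (j := j) (h.cu o) (h.cG o) (fun y hy => h.du_off o ?_) y
  have := abs_le_Z o hj y
  have := abs_pos.2 hy
  linarith

lemma cd_u {j : Fin n} (hj : j ≠ o) : ContDiff ℝ 1 (uu o a M g) := by
  rw [contDiff_one_iff_fderiv]
  refine ⟨fun y => (h.du o hj y).differentiableAt, ?_⟩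
  rw [show fderiv ℝ (uu o a M g) = _ from funext fun y => (h.du o hj y).fderiv]
  exact (innerSL ℝ).continuous.comp (h.cG o)

lemma grad_u {j : Fin n} (hj : j ≠ o) (y : Sp n) :
    gradient (uu o a M g) y = GG o a M1 M2 P R y := by
  refine HasGradientAt.gradient (hasGradientAt_iff_hasFDerivAt.2 ?_)
  refine (h.du o hj y).congr_fderiv ?_
  ext w; simp

lemma cW : Continuous (WW o a M1 M2 P R) := by
  have := h.cG o
  unfold WW; fun_prop

omit h in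
lemma W_off {y : Sp n} (hy : ‖Z o y‖ ≠ 0) (i : Fin n) : WW o a M1 M2 P R y i =
    if i = o then ‖Z o y‖ ^ (3 * a) * (fun s => (P s ^ 2 + R s ^ 2) * P s) (y o / ‖Z o y‖)
    else ‖Z o y‖ ^ (3 * a - 1) * (fun s => (P s ^ 2 + R s ^ 2) * R s) (y o / ‖Z o y‖) * y i := by
  have z0 : 0 < ‖Z o y‖ := lt_of_le_of_ne (norm_nonneg _) (Ne.symm hy)
  have e : ‖Z o y‖ ^ (3 * a) = (‖Z o y‖ ^ a) ^ 3 := by
    rw [mul_comm, Real.rpow_mul z0.le]; norm_cast
  rw [WW, G_off o hy, norm_comb, Real.rpow_sub_one hy, e]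
  simp only [PiLp.smul_apply, PiLp.add_apply, Z_apply, smul_eq_mul]
  by_cases hi : i = o
  · subst hi
    simp [ee]
    field_simp
  · simp [ee, hi]
    field_simp

lemma W_bd (y : Sp n) :
    |⟪WW o a M1 M2 P R y, Z o y⟫| ≤ 2 * C ^ 3 * ‖y‖ ^ (3 * a - 1) * ‖Z o y‖ ^ 2 := by
  have C0 := h.C0
  by_cases hy : ‖Z o y‖ = 0
  · rw [hy, norm_eq_zero.1 hy]; simp
  have z0 : 0 < ‖Z o y‖ := lt_of_le_of_ne (norm_nonneg _) (Ne.symm hy)
  have y0 : 0 < ‖y‖ := by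
    have := norm_sq_eq o y
    have e : 0 < ‖y‖ ^ 2 := by rw [this]; positivity
    exact lt_of_le_of_ne (norm_nonneg _) fun e' => by rw [← e'] at e; simp at e
  have e1 : ⟪WW o a M1 M2 P R y, Z o y⟫ =
      (T1 o a M1 M2 P y ^ 2 + T2 o a R y ^ 2) * (T2 o a R y * ‖Z o y‖) := by
    rw [WW, GG, norm_comb, inner_smul_left, inner_add_left, inner_smul_left, inner_smul_left,
      inner_ee, Z_apply, real_inner_self_eq_norm_sq]
    simp
    field_simp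
  have p0 : 0 < ‖y‖ ^ a := by positivity
  have e2 : |T1 o a M1 M2 P y| ≤ ‖y‖ ^ a * C := by
    rw [T1, T, if_neg hy, abs_mul, abs_of_pos p0]
    exact mul_le_mul_of_nonneg_left (h.b1 _) p0.le
  have e3 : |T2 o a R y| ≤ ‖y‖ ^ a * C := by
    rw [T2, T, if_neg hy, abs_mul, abs_of_pos p0]
    exact mul_le_mul_of_nonneg_left (h.b2' _) p0.le
  have e4 : |T2 o a R y| ≤ ‖y‖ ^ a * C * ‖Z o y‖ / ‖y‖ := by
    rw [le_div_iff₀ y0, T2, T, if_neg hy, abs_mul, abs_of_pos p0]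
    have := mul_le_mul_of_nonneg_left (h.b2 (y o / ‖Z o y‖)) (mul_pos p0 z0).le
    calc _ = ‖y‖ ^ a * |R (y o / ‖Z o y‖) * (1 + (y o / ‖Z o y‖) ^ 2) ^ (-a / 2)| *
          (‖Z o y‖ * √(1 + (y o / ‖Z o y‖) ^ 2)) := by rw [← norm_sqrt o hy]
      _ ≤ _ := by linarith
  have e5 : T1 o a M1 M2 P y ^ 2 + T2 o a R y ^ 2 ≤ 2 * (‖y‖ ^ a * C) ^ 2 := by
    have := sq_le_sq' (abs_le.1 e2).1 (abs_le.1 e2).2
    have := sq_le_sq' (abs_le.1 e3).1 (abs_le.1 e3).2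
    linarith
  have e : ‖y‖ ^ (3 * a) = (‖y‖ ^ a) ^ 3 := by
    rw [mul_comm, Real.rpow_mul y0.le]; norm_cast
  rw [e1, abs_mul, abs_mul, abs_of_pos z0, abs_of_nonneg (by positivity),
    Real.rpow_sub_one y0.ne', e]
  calc _ ≤ 2 * (‖y‖ ^ a * C) ^ 2 * (‖y‖ ^ a * C * ‖Z o y‖ / ‖y‖ * ‖Z o y‖) :=
        mul_le_mul e5 (mul_le_mul_of_nonneg_right e4 z0.le) (by positivity) (by positivity)
    _ = _ := by ring

end Prof

end Pool.Agent.H.MP_f4f698_an
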