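import Pool.Agent.H.MP_f4f698_an.F

open Set Filter Topology Metric MeasureTheory
open scoped RealInnerProductSpace

namespace Pool.Agent.H.MP_f4f698_an

variable {n : ℕ} (o : Fin n)

noncomputable def chi (d : ℝ) (y : Sp n) : ℝ := Real.smoothTransition (‖Z o y‖ ^ 2 / d - 1)

lemma th_cd : ContDiff ℝ 1 Real.smoothTransition := Real.smoothTransition.contDiff (n := 1)

lemma th_zero {t : ℝ} (ht : 1 < t) : deriv Real.smoothTransition t = 0 := by
  have : Real.smoothTransition =ᶠ[𝓝 t] fun _ => 1 := by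
    filter_upwards [lt_mem_nhds ht] with s hs using Real.smoothTransition.one_of_one_le hs.le
  rw [this.deriv_eq]; simp

lemma th_bd : ∃ K, 0 ≤ K ∧ ∀ t, |deriv Real.smoothTransition t| ≤ K := by
  obtain ⟨K, hK⟩ := (isCompact_Icc (a := (0 : ℝ)) (b := 1)).exists_bound_of_continuousOn
    (th_cd.continuous_deriv le_rfl).continuousOn
  have K0 : 0 ≤ K := (norm_nonneg _).trans (hK 0 (by simp))
  refine ⟨K, K0, fun t => ?_⟩
  rcases lt_or_ge 1 t with h1 | h1
  · rw [th_zero h1]; simpa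
  rcases lt_or_ge t 0 with h2 | h2
  · have : Real.smoothTransition =ᶠ[𝓝 t] fun _ => 0 := by
      filter_upwards [gt_mem_nhds h2] with s hs using Real.smoothTransition.zero_of_nonpos hs.le
    rw [this.deriv_eq]; simpa
  · exact hK t ⟨h2, h1⟩

lemma chi_cd (d : ℝ) : ContDiff ℝ 1 (chi o d) :=
  th_cd.comp ((((Z o).contDiff.norm_sq ℝ).div_const d).sub contDiff_const)

lemma chi_d (d : ℝ) (y : Sp n) : HasFDerivAt (chi o d)
    (innerSL ℝ ((deriv Real.smoothTransition (‖Z o y‖ ^ 2 / d - 1) * (2 / d)) • Z o y)) y := by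
  have h1 : HasFDerivAt (fun y => ‖Z o y‖ ^ 2 / d - 1) _ y :=
    ((hZ2 o y).mul_const d⁻¹).sub_const 1
  refine ((th_cd.differentiable one_ne_zero _).hasDerivAt.comp_hasFDerivAt y h1).congr_fderiv ?_
  ext w
  simp
  ring

lemma chi_zero {d : ℝ} (_ : 0 < d) {y : Sp n} (hy : ‖Z o y‖ = 0) : chi o d =ᶠ[𝓝 y] fun _ => 0 := by
  have c : Continuous fun w : Sp n => ‖Z o w‖ ^ 2 / d - 1 := by fun_prop
  have : ‖Z o y‖ ^ 2 / d - 1 < 0 := by rw [hy]; simp
  filter_upwards [(c.tendsto y).eventually (gt_mem_nhds this)] with w hw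
  exact Real.smoothTransition.zero_of_nonpos hw.le

lemma cd_hom {y : Sp n} (hy : ‖Z o y‖ ≠ 0) {H : ℝ → ℝ} (hH : ContDiff ℝ 1 H) (b : ℝ) :
    ContDiffAt ℝ 1 (fun y => ‖Z o y‖ ^ b * H (y o / ‖Z o y‖)) y := by
  have h1 : ContDiffAt ℝ 1 (fun y => ‖Z o y‖) y :=
    (Z o).contDiff.contDiffAt.norm ℝ (norm_ne_zero_iff.1 hy)
  have h2 : ContDiffAt ℝ 1 (fun y : Sp n => y o) y :=
    (EuclideanSpace.proj o : Sp n →L[ℝ] ℝ).contDiff.contDiffAt
  exact (h1.rpow_const_of_ne hy).mul (hH.contDiffAt.comp y (h2.div h1 hy))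

lemma sum_inner (x y : Sp n) : ∑ i, x i * y i = ⟪x, y⟫ := by
  rw [PiLp.inner_apply]; simp [mul_comm]

namespace Prof
variable {a M M1 M2 C : ℝ} {g P R : ℝ → ℝ} (h : Prof a M M1 M2 C g P R)
include h

lemma cA : ContDiff ℝ 1 fun s => (P s ^ 2 + R s ^ 2) * P s := by
  have := h.cP; have := h.cR; fun_prop

lemma cB : ContDiff ℝ 1 fun s => (P s ^ 2 + R s ^ 2) * R s := by
  have := h.cP; have := h.cR; fun_prop

lemma W_cd {y : Sp n} (hy : ‖Z o y‖ ≠ 0) (i : Fin n) :
    ContDiffAt ℝ 1 (fun y => WW o a M1 M2 P R y i) y := by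
  have cZ : Continuous fun y : Sp n => ‖Z o y‖ := by fun_prop
  have h2 : ContDiffAt ℝ 1 (fun y : Sp n => y i) y :=
    (EuclideanSpace.proj i : Sp n →L[ℝ] ℝ).contDiff.contDiffAt
  by_cases hi : i = o
  · refine (cd_hom o hy h.cA (3 * a)).congr_of_eventuallyEq ?_
    filter_upwards [cZ.continuousAt.eventually_ne hy] with w hw
    rw [W_off o hw, if_pos hi]
  · refine ((cd_hom o hy h.cB (3 * a - 1)).mul h2).congr_of_eventuallyEq ?_
    filter_upwards [cZ.continuousAt.eventually_ne hy] with w hw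
    rw [W_off o hw, if_neg hi]

lemma f_cd {d : ℝ} (hd : 0 < d) (i : Fin n) :
    ContDiff ℝ 1 fun y => WW o a M1 M2 P R y i * chi o d y := by
  rw [contDiff_iff_contDiffAt]
  intro y
  by_cases hy : ‖Z o y‖ = 0
  · refine (contDiffAt_const (c := (0 : ℝ))).congr_of_eventuallyEq ?_
    filter_upwards [chi_zero o hd hy] with w hw
    simp [hw]
  · exact (h.W_cd o hy i).mul (chi_cd o d).contDiffAt

lemma div_W (hn : (n : ℝ) = mu + 2) {y : Sp n} (hy : ‖Z o y‖ ≠ 0) :
    ∑ i, fderiv ℝ (fun y => WW o a M1 M2 P R y i) y (ee i) = 0 := by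
  have cZ : Continuous fun y : Sp n => ‖Z o y‖ := by fun_prop
  obtain ⟨A, hA⟩ : ∃ A : ℝ → ℝ, A = fun s => (P s ^ 2 + R s ^ 2) * P s := ⟨_, rfl⟩
  obtain ⟨B, hB⟩ : ∃ B : ℝ → ℝ, B = fun s => (P s ^ 2 + R s ^ 2) * R s := ⟨_, rfl⟩
  have dA := ((hA ▸ h.cA : ContDiff ℝ 1 A).differentiable one_ne_zero (y o / ‖Z o y‖)).hasDerivAt
  have dB := ((hB ▸ h.cB : ContDiff ℝ 1 B).differentiable one_ne_zero (y o / ‖Z o y‖)).hasDerivAt
  have hd := h.hdiv (y o / ‖Z o y‖)
  rw [← hA, ← hB, show (P (y o / ‖Z o y‖) ^ 2 + R (y o / ‖Z o y‖) ^ 2) * R (y o / ‖Z o y‖) =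
    B (y o / ‖Z o y‖) by rw [hB]] at hd
  obtain ⟨s, hs⟩ : ∃ s, s = y o / ‖Z o y‖ := ⟨_, rfl⟩
  have key : ∀ i, fderiv ℝ (fun y => WW o a M1 M2 P R y i) y (ee i) =
      ‖Z o y‖ ^ (3 * a - 1) * B s +
        (if i = o then ‖Z o y‖ ^ (3 * a - 1) * (deriv A s - B s) else 0) +
        ‖Z o y‖ ^ (3 * a - 1 - 1) * ((3 * a - 1) * B s - s * deriv B s) / ‖Z o y‖ *
          (Z o y i * Z o y i) := by
    intro i
    by_cases hi : i = o
    · have e : (fun y => WW o a M1 M2 P R y i) =ᶠ[𝓝 y]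
          fun y => ‖Z o y‖ ^ (3 * a) * A (y o / ‖Z o y‖) := by
        filter_upwards [cZ.continuousAt.eventually_ne hy] with w hw
        rw [W_off o hw, if_pos hi, hA]
      rw [e.fderiv_eq, (hom o hy (3 * a) dA).fderiv, ← hs]
      subst hi
      simp only [innerSL_apply_apply, inner_ee', smul_eq_mul,
        PiLp.add_apply, PiLp.smul_apply, Z_apply]
      simp [ee]
      ring
    · have e : (fun y => WW o a M1 M2 P R y i) =ᶠ[𝓝 y]
          fun y => ‖Z o y‖ ^ (3 * a - 1) * B (y o / ‖Z o y‖) * y i := by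
        filter_upwards [cZ.continuousAt.eventually_ne hy] with w hw
        rw [W_off o hw, if_neg hi, hB]
      have := ((hom o hy (3 * a - 1) dB).mul (hX y i)).fderiv
      rw [e.fderiv_eq]
      erw [this]
      rw [← hs]
      simp only [add_apply, smul_apply, innerSL_apply_apply, inner_ee', smul_eq_mul,
        PiLp.add_apply, PiLp.smul_apply, Z_apply, if_neg hi]
      simp [ee, hi]
      ring
  simp only [key, Finset.sum_add_distrib, Finset.sum_const, Finset.card_univ, Fintype.card_fin,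
    Finset.sum_ite_eq', Finset.mem_univ, if_true, ← Finset.mul_sum, sum_inner,
    real_inner_self_eq_norm_sq, nsmul_eq_mul, hn]
  rw [← hs] at hd
  rw [Real.rpow_sub_one hy (3 * a - 1)]
  field_simp
  linear_combination (‖Z o y‖ ^ (3 * a - 1)) * hd

lemma div_f (hn : (n : ℝ) = mu + 2) {d : ℝ} (hd : 0 < d) (y : Sp n) :
    ∑ i, fderiv ℝ (fun y => WW o a M1 M2 P R y i * chi o d y) y (ee i) =
      deriv Real.smoothTransition (‖Z o y‖ ^ 2 / d - 1) * (2 / d) *
        ⟪WW o a M1 M2 P R y, Z o y⟫ := by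
  by_cases hy : ‖Z o y‖ = 0
  · rw [norm_eq_zero.1 hy, inner_zero_right, mul_zero]
    refine Finset.sum_eq_zero fun i _ => ?_
    have e : (fun y => WW o a M1 M2 P R y i * chi o d y) =ᶠ[𝓝 y] fun _ => 0 := by
      filter_upwards [chi_zero o hd hy] with w hw
      simp [hw]
    rw [e.fderiv_eq]; simp
  · have key : ∀ i, fderiv ℝ (fun y => WW o a M1 M2 P R y i * chi o d y) y (ee i) =
        deriv Real.smoothTransition (‖Z o y‖ ^ 2 / d - 1) * (2 / d) *
          (WW o a M1 M2 P R y i * Z o y i) +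
        chi o d y * fderiv ℝ (fun y => WW o a M1 M2 P R y i) y (ee i) := by
      intro i
      have := (((h.W_cd o hy i).differentiableAt one_ne_zero).hasFDerivAt.mul (chi_d o d y)).fderiv
      erw [this]
      simp only [add_apply, smul_apply, innerSL_apply_apply, inner_ee', smul_eq_mul,
        PiLp.smul_apply]
      ring
    simp only [key, Finset.sum_add_distrib, ← Finset.mul_sum, h.div_W o hn hy, sum_inner]
    ring

theorem weak {j : Fin n} (hj : j ≠ o) (hn : (n : ℝ) = mu + 2) {φ : Sp n → ℝ}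
    (hφ : ContDiff ℝ 1 φ) (hc : HasCompactSupport φ) :
    ∫ y, ∑ i, WW o a M1 M2 P R y i * fderiv ℝ φ y (ee i) = 0 := by
  have cW : ∀ i, Continuous fun y => WW o a M1 M2 P R y i := fun i =>
    (EuclideanSpace.proj i : Sp n →L[ℝ] ℝ).continuous.comp (h.cW o)
  have cφ := hφ.continuous
  have cD : ∀ i, Continuous fun y => fderiv ℝ φ y (ee i) := fun i =>
    (hφ.continuous_fderiv one_ne_zero).clm_apply continuous_const
  have sD : ∀ i, HasCompactSupport fun y => fderiv ℝ φ y (ee i) := fun i =>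
    hc.fderiv_apply ℝ (ee i)
  obtain ⟨Φ, hΦ⟩ : ∃ Φ : Sp n → ℝ, Φ = fun y => ∑ i, WW o a M1 M2 P R y i * fderiv ℝ φ y (ee i) :=
    ⟨_, rfl⟩
  have iΦ : Integrable Φ := by
    rw [hΦ]
    exact integrable_finsetSum _ fun i _ =>
      ((cW i).mul (cD i)).integrable_of_hasCompactSupport (sD i).mul_left
  obtain ⟨H, hH⟩ : ∃ H : ℝ → Sp n → ℝ, H = fun d y =>
      deriv Real.smoothTransition (‖Z o y‖ ^ 2 / d - 1) * (2 / d) *
        ⟪WW o a M1 M2 P R y, Z o y⟫ * φ y := ⟨_, rfl⟩
  have main : ∀ d : ℝ, 0 < d → ∫ y, chi o d y * Φ y = -∫ y, H d y := by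
    intro d hd
    have i1 : ∀ i, Integrable fun y =>
        fderiv ℝ (fun y => WW o a M1 M2 P R y i * chi o d y) y (ee i) * φ y := fun i =>
      ((((h.f_cd o hd i).continuous_fderiv one_ne_zero).clm_apply continuous_const).mul
        cφ).integrable_of_hasCompactSupport hc.mul_left
    have i2 : ∀ i, Integrable fun y =>
        (WW o a M1 M2 P R y i * chi o d y) * fderiv ℝ φ y (ee i) := fun i =>
      ((h.f_cd o hd i).continuous.mul (cD i)).integrable_of_hasCompactSupport (sD i).mul_left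
    have e : ∀ i, ∫ y, (WW o a M1 M2 P R y i * chi o d y) * fderiv ℝ φ y (ee i) =
        -∫ y, fderiv ℝ (fun y => WW o a M1 M2 P R y i * chi o d y) y (ee i) * φ y := fun i =>
      integral_mul_fderiv_eq_neg_fderiv_mul_of_integrable (i1 i) (i2 i)
        (((h.f_cd o hd i).continuous.mul cφ).integrable_of_hasCompactSupport hc.mul_left)
        (fun x _ => (h.f_cd o hd i).differentiable one_ne_zero x)
        (fun x _ => hφ.differentiable one_ne_zero x)
    have e2 := Finset.sum_congr (rfl : Finset.univ = Finset.univ) fun i _ => e i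
    rw [Finset.sum_neg_distrib, ← integral_finsetSum _ fun i _ => i1 i,
      ← integral_finsetSum _ fun i _ => i2 i] at e2
    simp only [← Finset.sum_mul, h.div_f o hn hd] at e2
    rw [hH, ← e2, hΦ]
    congr 1
    ext y
    rw [Finset.mul_sum]
    exact Finset.sum_congr rfl fun i _ => by ring
  have ev : ∀ y : Sp n, ‖Z o y‖ ≠ 0 → ∀ᶠ d in 𝓝[>] (0 : ℝ), 1 < ‖Z o y‖ ^ 2 / d - 1 := by
    intro y hy
    have p : 0 < ‖Z o y‖ ^ 2 / 2 := by positivity
    filter_upwards [Ioo_mem_nhdsGT p] with d hd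
    rw [lt_sub_iff_add_lt, lt_div_iff₀ hd.1]
    linarith [hd.2]
  have t1 : Tendsto (fun d => ∫ y, chi o d y * Φ y) (𝓝[>] 0) (𝓝 (∫ y, Φ y)) := by
    refine tendsto_integral_filter_of_dominated_convergence (fun y => ‖Φ y‖)
      (Eventually.of_forall fun d =>
        (chi_cd o d).continuous.aestronglyMeasurable.mul iΦ.aestronglyMeasurable)
      (Eventually.of_forall fun d => Eventually.of_forall fun y => ?_) iΦ.norm ?_
    · rw [norm_mul]
      refine mul_le_of_le_one_left (norm_nonneg _) ?_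
      rw [chi, Real.norm_of_nonneg (Real.smoothTransition.nonneg _)]
      exact Real.smoothTransition.le_one _
    · have null : volume ((EuclideanSpace.proj j : Sp n →L[ℝ] ℝ).ker : Set (Sp n)) = 0 := by
        refine Measure.addHaar_submodule _ _ fun e => ?_
        have : ee j ∈ (EuclideanSpace.proj j : Sp n →L[ℝ] ℝ).ker := by rw [e]; trivial
        simp [ee] at this
      filter_upwards [measure_eq_zero_iff_ae_notMem.1 null] with y hy
      have hy' : ‖Z o y‖ ≠ 0 := by
        have := abs_le_Z o hj y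
        have : 0 < |y j| := abs_pos.2 (by simpa using hy)
        linarith
      refine tendsto_const_nhds.congr' ?_
      filter_upwards [ev y hy'] with d hd
      rw [chi, Real.smoothTransition.one_of_one_le hd.le, one_mul]
  obtain ⟨K, K0, hK⟩ := th_bd
  have C0 := h.C0
  have t2 : Tendsto (fun d => ∫ y, H d y) (𝓝[>] 0) (𝓝 (∫ _ : Sp n, (0 : ℝ))) := by
    have cn : Continuous fun y : Sp n => ‖y‖ ^ (3 * a - 1) :=
      continuous_norm.rpow_const fun _ => Or.inr (by linarith [h.ha.1])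
    refine tendsto_integral_filter_of_dominated_convergence
      (fun y => K * (8 * C ^ 3 * ‖y‖ ^ (3 * a - 1)) * |φ y|)
      (Eventually.of_forall fun d => Continuous.aestronglyMeasurable ?_) ?_ ?_
      (Eventually.of_forall fun y => ?_)
    · have := th_cd.continuous_deriv le_rfl
      have := h.cW o
      rw [hH]
      fun_prop
    · filter_upwards [self_mem_nhdsWithin] with d hd
      have hd : 0 < d := hd
      refine Eventually.of_forall fun y => ?_
      rw [hH]
      simp only [Real.norm_eq_abs, abs_mul]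
      refine mul_le_mul_of_nonneg_right ?_ (abs_nonneg _)
      rcases lt_or_ge 1 (‖Z o y‖ ^ 2 / d - 1) with h1 | h1
      · rw [th_zero h1]; simp; positivity
      · rw [mul_assoc]
        refine mul_le_mul (hK _) ?_ (by positivity) K0
        rw [sub_le_iff_le_add, div_le_iff₀ hd] at h1
        rw [abs_of_pos (by positivity : 0 < 2 / d), div_mul_eq_mul_div, div_le_iff₀ hd]
        have e1 := h.W_bd o y
        have e2 : 0 ≤ 2 * C ^ 3 * ‖y‖ ^ (3 * a - 1) := by positivity
        have e3 := mul_le_mul_of_nonneg_left h1 e2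
        linarith
    · exact Continuous.integrable_of_hasCompactSupport (by fun_prop) hc.abs.mul_left
    · by_cases hy : ‖Z o y‖ = 0
      · rw [hH]; simp [norm_eq_zero.1 hy]
      · refine tendsto_const_nhds.congr' ?_
        filter_upwards [ev y hy] with d hd
        rw [hH]; simp only [th_zero hd]; simp
  have t3 := t2.neg
  rw [integral_zero, neg_zero] at t3
  have t4 : Tendsto (fun d => ∫ y, chi o d y * Φ y) (𝓝[>] 0) (𝓝 0) := by
    refine t3.congr' ?_
    filter_upwards [self_mem_nhdsWithin] with d hd using (main d hd).symm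
  rw [← tendsto_nhds_unique t1 t4, hΦ]

end Prof

end Pool.Agent.H.MP_f4f698_an
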