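import Pool.Agent.H.MP_f4f698_an.G

open Set Filter Topology Metric MeasureTheory
open scoped RealInnerProductSpace

namespace Pool.Agent.H.MP_f4f698_an

variable {n : ℕ} (o : Fin n)

noncomputable def wi (k : ℝ) (i : Fin n) (y : Sp n) : ℝ := ‖y‖ ^ k * (y i ^ 2 / ‖y‖ ^ 2)

lemma int_pow {k : ℝ} (hk : 0 < k) (e : ℝ) : IntegrableOn (fun y : Sp n => ‖y‖ ^ k) (ball 0 e) :=
  ((continuous_norm.rpow_const fun _ => Or.inr hk.le).continuousOn.integrableOn_compact
    (isCompact_closedBall 0 e)).mono_set ball_subset_closedBall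

lemma frac_le (i : Fin n) (y : Sp n) : y i ^ 2 / ‖y‖ ^ 2 ≤ 1 :=
  div_le_one_of_le₀ (by rw [norm_sq_eq i y]; nlinarith [sq_nonneg ‖Z i y‖]) (by positivity)

lemma int_wi {k : ℝ} (hk : 0 < k) (e : ℝ) (i : Fin n) : IntegrableOn (wi k i) (ball 0 e) := by
  refine (int_pow hk e).mono' (Measurable.aestronglyMeasurable ?_) (Eventually.of_forall fun y => ?_)
  · have c1 : Measurable fun y : Sp n => ‖y‖ ^ k :=
      (continuous_norm.rpow_const fun _ => Or.inr hk.le).measurable
    have c2 : Measurable fun y : Sp n => y i ^ 2 := (by fun_prop : Continuous _).measurable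
    have c3 : Measurable fun y : Sp n => ‖y‖ ^ 2 := (by fun_prop : Continuous _).measurable
    exact c1.mul (c2.div c3)
  · rw [wi, Real.norm_of_nonneg (by positivity)]
    exact mul_le_of_le_one_right (by positivity) (frac_le i y)

lemma wi_symm (k e : ℝ) (i : Fin n) : ∫ y in ball 0 e, wi k i y = ∫ y in ball 0 e, wi k o y := by
  let f := LinearIsometryEquiv.piLpCongrLeft 2 ℝ ℝ (Equiv.swap i o)
  have := f.measurePreserving.setIntegral_preimage_emb f.toHomeomorph.measurableEmbedding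
    (wi k o) (ball 0 e)
  rw [← this]
  have e1 : f ⁻¹' ball 0 e = ball 0 e := by ext y; simp
  rw [e1]
  congr 1
  ext y
  have e2 : f y o = y i := by simp [f, Equiv.piCongrLeft']
  rw [wi, wi, e2, f.norm_map]

lemma wi_sum {k : ℝ} (hk : 0 < k) (e : ℝ) :
    n * ∫ y in ball 0 e, wi k o y = ∫ y in ball (0 : Sp n) e, ‖y‖ ^ k := by
  have h1 := integral_finsetSum (μ := volume.restrict (ball 0 e)) Finset.univ
    fun i _ => int_wi hk e (i : Fin n)
  simp only [wi_symm o k e, Finset.sum_const, Finset.card_univ, Fintype.card_fin,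
    nsmul_eq_mul] at h1
  rw [← h1]
  congr 1
  ext y
  simp only [wi, ← Finset.mul_sum, ← Finset.sum_div]
  rcases eq_or_ne y 0 with rfl | hy
  · simp [hk.ne']
  · have : ∑ i, y i ^ 2 = ‖y‖ ^ 2 := by
      rw [← real_inner_self_eq_norm_sq, ← sum_inner]; simp [sq]
    rw [this, div_self (by simpa using hy), mul_one]

lemma J_ge (hn : (n : ℝ) = mu + 2) {k e : ℝ} (hk : 0 < k) (hk2 : k ≤ 2) (he : 0 < e) :
    49 / 50 * e ^ k * volume.real (ball (0 : Sp n) e) ≤ ∫ y in ball (0 : Sp n) e, ‖y‖ ^ k := by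
  obtain ⟨c, hc⟩ : ∃ c, c = (99 / 100 * e) ^ k := ⟨_, rfl⟩
  have c0 : 0 ≤ c := by rw [hc]; positivity
  have fin : volume (ball (0 : Sp n) e) ≠ ⊤ := measure_ball_lt_top.ne
  have i1 : IntegrableOn (fun _ : Sp n => c) (ball 0 e) := integrableOn_const fin
  have i2 : IntegrableOn ((ball (0 : Sp n) (99 / 100 * e)).indicator fun _ => c) (ball 0 e) :=
    i1.indicator measurableSet_ball
  have h1 := setIntegral_mono_on (i1.sub i2) (int_pow hk e) measurableSet_ball fun y _ => ?_
  · refine le_trans ?_ h1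
    simp only [Pi.sub_apply]
    rw [integral_sub i1 i2, setIntegral_indicator measurableSet_ball,
      inter_eq_right.2 (ball_subset_ball (by linarith))]
    simp only [setIntegral_const, smul_eq_mul]
    have e1 : volume.real (ball (0 : Sp n) (99 / 100 * e)) =
        (99 / 100) ^ n * volume.real (ball (0 : Sp n) e) := by
      rw [measureReal_def, Measure.addHaar_ball_mul_of_pos _ _ (by norm_num), ENNReal.toReal_mul,
        ENNReal.toReal_ofReal (by positivity)]
      simp [measureReal_def]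
    have e2 : (99 / 100 : ℝ) ^ n ≤ 1 / 1000000 := by
      have := one_add_mul_le_pow (a := (1 / 99 : ℝ)) (by norm_num) n
      rw [hn] at this
      have e3 : (99 / 100 : ℝ) ^ n * (1 + 1 / 99) ^ n = 1 := by rw [← mul_pow]; norm_num
      have e4 : (0 : ℝ) < (99 / 100) ^ n := by positivity
      unfold mu at this
      nlinarith
    have e3 : (99 / 100) ^ 2 * e ^ k ≤ c := by
      rw [hc, Real.mul_rpow (by norm_num) he.le]
      refine mul_le_mul_of_nonneg_right ?_ (by positivity)
      rw [← Real.rpow_two]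
      exact Real.rpow_le_rpow_of_exponent_ge (by norm_num) (by norm_num) hk2
    have v0 : 0 ≤ volume.real (ball (0 : Sp n) e) := measureReal_nonneg
    have p0 : 0 ≤ e ^ k := by positivity
    rw [e1]
    have e5 := mul_le_mul_of_nonneg_right e2 (mul_nonneg v0 c0)
    have e6 := mul_le_mul_of_nonneg_right e3 v0
    have := mul_nonneg p0 v0
    nlinarith
  · simp only [Pi.sub_apply]
    by_cases hy : y ∈ ball (0 : Sp n) (99 / 100 * e)
    · rw [indicator_of_mem hy, sub_self]; positivity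
    · rw [indicator_of_notMem hy, sub_zero, hc]
      exact Real.rpow_le_rpow (by positivity) (by simpa using hy) hk.le

namespace Prof
variable {a M M1 M2 C : ℝ} {g P R : ℝ → ℝ} (h : Prof a M M1 M2 C g P R)
include h

lemma M_le : M ≤ 41 / 100 * mu := by
  refine le_of_tendsto' h.l0 fun s => ?_
  have p : 0 < 1 + s ^ 2 := by positivity
  refine le_of_mul_le_mul_right ((h.ub s).trans ?_) p
  unfold mu; nlinarith

lemma u_le (y : Sp n) : uu o a M g y ≤
    (41 / 100 * mu + 849 / 1000) * wi (a + 1) o y - 849 / 1000 * ‖y‖ ^ (a + 1) := by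
  have a0 := h.a0
  rcases eq_or_ne y 0 with rfl | y0
  · simp [uu, T, wi, (show 0 < a + 1 by linarith).ne']
  have y1 : 0 < ‖y‖ := norm_pos_iff.2 y0
  have p : 0 < ‖y‖ ^ (a + 1) := by positivity
  have e := norm_sq_eq o y
  rw [uu, T, wi, mul_left_comm, mul_comm (849 / 1000 : ℝ), ← mul_sub]
  refine mul_le_mul_of_nonneg_left ?_ p.le
  by_cases hy : ‖Z o y‖ = 0
  · rw [hy] at e
    rw [if_pos hy, ite_self, e]
    have : y o ^ 2 ≠ 0 := fun e' => by rw [e'] at e; simp at e; exact y0 e
    simp only [ne_eq, OfNat.ofNat_ne_zero, not_false_eq_true, zero_pow, add_zero]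
    rw [div_self this]
    linarith [h.M_le]
  · rw [if_neg hy]
    have p2 : 0 < 1 + (y o / ‖Z o y‖) ^ 2 := by positivity
    refine le_of_mul_le_mul_right ((h.ub _).trans (le_of_eq ?_)) p2
    rw [e]
    have : 0 < y o ^ 2 + ‖Z o y‖ ^ 2 := by positivity
    field_simp
    ring

lemma u_le' (y : Sp n) : uu o a M g y ≤ 41 / 100 * mu * ‖y‖ ^ (a + 1) := by
  have h1 := h.u_le o y
  have h2 : wi (a + 1) o y ≤ ‖y‖ ^ (a + 1) := mul_le_of_le_one_right (by positivity) (frac_le o y)
  unfold mu at *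
  linarith

lemma u_zero : uu o a M g 0 = 0 := by
  simp [uu, T, (show 0 < a + 1 by linarith [h.a0]).ne']

lemma u_pt {j : Fin n} (hj : j ≠ o) {e : ℝ} (he : 0 < e) :
    uu o a M g (e • ee j) = -e ^ (a + 1) := by
  have e1 : (e • ee j) o = 0 := by simp [ee, hj.symm]
  have e2 : ‖Z o (e • ee j)‖ = e := by
    rw [Z_eq, e1, zero_smul, sub_zero, norm_smul, norm_ee, Real.norm_of_nonneg he.le, mul_one]
  rw [uu, T_off o (by rw [e2]; exact he.ne'), e1, e2, zero_div, h.g0]; ring

lemma avg_le (hn : (n : ℝ) = mu + 2) {e : ℝ} (he : 0 < e) :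
    ⨍ y in ball 0 e, uu o a M g y ≤ -(43 / 100 * e ^ (a + 1)) := by
  have k0 : 0 < a + 1 := by linarith [h.a0]
  have iu : IntegrableOn (uu o a M g) (ball 0 e) :=
    ((h.cu o).continuousOn.integrableOn_compact (isCompact_closedBall 0 e)).mono_set
      ball_subset_closedBall
  have i1 := (int_wi k0 e o).const_mul (41 / 100 * mu + 849 / 1000)
  have i2 := (int_pow (n := n) k0 e).const_mul (849 / 1000)
  have h1 := setIntegral_mono_on iu (i1.sub i2) measurableSet_ball fun y _ => h.u_le o y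
  simp only [Pi.sub_apply] at h1
  rw [integral_sub i1 i2, integral_const_mul, integral_const_mul] at h1
  have h2 := wi_sum o k0 e
  have h3 := J_ge hn k0 (by linarith [h.ha.2]) he
  have v0 : 0 < volume.real (ball (0 : Sp n) e) :=
    ENNReal.toReal_pos (measure_ball_pos _ _ he).ne' measure_ball_lt_top.ne
  have p : 0 < e ^ (a + 1) := by positivity
  rw [setAverage_eq, smul_eq_mul, inv_mul_le_iff₀ v0]
  rw [hn] at h2
  have := mul_pos p v0
  unfold mu at *
  nlinarith

theorem fail {j : Fin n} (hj : j ≠ o) (hn : (n : ℝ) = mu + 2) :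
    ¬ (fun ε : ℝ => uu o a M g 0 -
          (((4 : ℝ) - 2) / (2 * (4 + (n : ℝ))) *
              (sSup (uu o a M g '' closedBall 0 ε) + sInf (uu o a M g '' closedBall 0 ε)) +
            ((n : ℝ) + 2) / (4 + (n : ℝ)) * ⨍ y in ball 0 ε, uu o a M g y))
        =o[𝓝[>] (0 : ℝ)] (fun ε : ℝ => ε ^ 2) := by
  intro H
  have k0 : 0 < a + 1 := by linarith [h.a0]
  obtain ⟨e, he, h1, h2⟩ := ((H.bound (c := 1 / 200) (by norm_num)).and
    (Ioo_mem_nhdsGT zero_lt_one)).exists
  have s1 : sSup (uu o a M g '' closedBall 0 e) ≤ 41 / 100 * mu * e ^ (a + 1) := by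
    refine csSup_le ((nonempty_closedBall.2 h1.le).image _) ?_
    rintro _ ⟨y, hy, rfl⟩
    refine (h.u_le' o y).trans (mul_le_mul_of_nonneg_left ?_ (by unfold mu; norm_num))
    exact Real.rpow_le_rpow (norm_nonneg _) (by simpa using hy) k0.le
  have s2 : sInf (uu o a M g '' closedBall 0 e) ≤ -e ^ (a + 1) := by
    rw [← h.u_pt o hj h1]
    refine csInf_le ((isCompact_closedBall 0 e).image (h.cu o)).bddBelow ⟨_, ?_, rfl⟩
    simp [norm_smul, norm_ee, abs_of_pos h1]
  have s3 := h.avg_le o hn h1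
  have s4 : e ^ 2 ≤ e ^ (a + 1) := by
    rw [← Real.rpow_two]
    exact Real.rpow_le_rpow_of_exponent_ge h1 h2.le (by linarith [h.ha.2])
  have s5 := (le_abs_self _).trans he
  rw [h.u_zero, hn, Real.norm_of_nonneg (by positivity)] at s5
  have : 0 < e ^ 2 := by positivity
  unfold mu at *
  norm_num at s5
  linarith

end Prof

end Pool.Agent.H.MP_f4f698_an
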